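import Pool.Agent.Helper5.SX.Main
import Pool.Agent.Helper5.SY.Copy

/-!
# Reductions, and the oracle of a set of pairs

Project AN: a relativised world in which some set that is complete for NEXP under majority
reductions with three queries is neither autoreducible nor mitotic, even for polynomially many
nonadaptive queries.
-/

namespace Pool.Agent.Helper5.AN

open Pool.Agent.Helper5.SX Function

/-! ### reductions -/

/-- The code of a list of strings. -/
def lenc : List Str → Str
  | [] => []
  | w :: l => w.flatMap (fun b => [true, b]) ++ false :: lenc l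

/-- The list of queries `q x` can be computed in polynomial time with the oracle `O`: some
deterministic program halts on `x` within `n^k+k` steps with the code of `q x` on stack 2. -/
def PolyList (O : Set Str) (q : Str → List Str) : Prop :=
  ∃ c : Cmd, c.Det ∧ ∃ k : ℕ, ∀ x : Str, ∃ t ≤ x.length ^ k + k, ∃ s' : Store,
    Run O c (start x []) t s' ∧ s' 2 = lenc (q x)

open Classical in
/-- The list of the answers. -/
noncomputable def ans (A : Set Str) (l : List Str) : Str := l.map (fun y => decide (y ∈ A))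

/-- Truth-table reduction of `C` to `A` with the queries `q x`: the queries can be computed in
polynomial time, and a deterministic program decides `C` in time `n^k+k` from `x` (stack 0) and
the answers (stack 1). All programs may use the oracle `O`. -/
def TT (O : Set Str) (q : Str → List Str) (C A : Set Str) : Prop :=
  PolyList O q ∧ ∃ c : Cmd, c.Det ∧ ∃ k : ℕ, ∀ x : Str, ∃ t ≤ x.length ^ k + k, ∃ s' : Store,
    Run O c (start x (ans A (q x))) t s' ∧ (s' 2 ≠ [] ↔ x ∈ C)

/-- The class `P^O`. -/
def PP (O : Set Str) : Set (Set Str) :=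
  {S | ∃ c : Cmd, c.Det ∧ ∃ k : ℕ, ∀ x : Str, ∃ t ≤ x.length ^ k + k, ∃ s' : Store,
    Run O c (start x []) t s' ∧ (s' 2 ≠ [] ↔ x ∈ S)}

/-! ### the oracle -/

/-- The lengths of the stages. -/
def N : ℕ → ℕ
  | 0 => 9
  | j + 1 => N j ^ (j + 2)

/-- The oracle of a set of pairs: the strings that pair `y` with a witness `w`, and the marks of
the stages. -/
def orcl (W : Set (Str × Str)) : Set Str :=
  {q | (∃ y w, q = tstr y w ∧ (y, w) ∈ W ∧ w.length = 2 ^ y.length) ∨
    ∃ j, q = List.replicate (N j) true}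

/-- The set of a set of pairs. -/
def AA (W : Set (Str × Str)) : Set Str := {y | ∃ w, (y, w) ∈ W ∧ w.length = 2 ^ y.length}

open Classical in
/-- The largest stage length below `m` (`0` if there is none). -/
noncomputable def dl (m : ℕ) : ℕ := Nat.findGreatest (fun n => ∃ j, n = N j) (m - 1)

/-- The special string of the stage `j`. -/
def dN (j : ℕ) : Str := List.replicate (N j) true

/-- The two code strings for the question whether the program `i` accepts `x`. -/
def ystr (i : ℕ) (b : Bool) (x : Str) : Str :=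
  false :: b :: (List.replicate (i + 1) true ++
    false :: penc x (false :: List.replicate ((x.length + 2) ^ (i + 2)) true))

/-- Their length. -/
def yl (i : ℕ) (x : Str) : ℕ := (x.length + 2) ^ (i + 2) + 2 * x.length + i + 5

/-- The program `i` accepts `x`. -/
def kap (f : ℕ → Cmd × ℕ) (i : ℕ) (x : Str) (W : Set (Str × Str)) : Prop :=
  famA f i x (orcl W)

/-- The code for the program `i` and the string `x` is correct: the pair `(b₀, b₁)` of bits is
`(0,0)`, `(0,1)` or `(1,1)`, and the value is `0`, the bit of the special string, or `1`. -/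
def Ok (f : ℕ → Cmd × ℕ) (W : Set (Str × Str)) (i : ℕ) (x : Str) : Prop :=
  (ystr i false x ∈ AA W → ystr i true x ∈ AA W) ∧
    (kap f i x W ↔ ystr i false x ∈ AA W ∨
      (ystr i true x ∈ AA W ∧ List.replicate (dl (yl i x)) true ∈ AA W))

/-! ### the recursions -/

/-- The standard witness. -/
def w0 (y : Str) : Str := List.replicate (2 ^ y.length) false

/-- World 0 for the pattern `e`. -/
def Phi0 (f : ℕ → Cmd × ℕ) (n : ℕ) (Wb : Set (Str × Str)) (e : Set (ℕ × Str)) (p : Str × Str)
    (R : Set (Str × Str)) : Prop :=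
  (p.1.length < n ∧ p ∈ Wb) ∨
    (n ≤ p.1.length ∧ p.2 = w0 p.1 ∧ ∃ i b x, p.1 = ystr i b x ∧
      (kap f i x R ∨ (b = true ∧ (i, x) ∈ e)))

/-- The two worlds together (`false`: world 0, `true`: world 1). -/
def PhiP (f : ℕ → Cmd × ℕ) (n : ℕ) (Wb : Set (Str × Str)) (Q' : Set (ℕ × Str))
    (w1 : Str → Str) (p : Bool × Str × Str) (R : Set (Bool × Str × Str)) : Prop :=
  (p.2.1.length < n ∧ p.2 ∈ Wb) ∨
    (n ≤ p.2.1.length ∧ p.2.2 = w0 p.2.1 ∧ ∃ i b x, p.2.1 = ystr i b x ∧
      (kap f i x {q | (false, q) ∈ R} ∨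
        (b = true ∧ (i, x) ∈ Q' ∧ kap f i x {q | (true, q) ∈ R}))) ∨
    (p.1 = true ∧ p.2.1 = List.replicate n true ∧ p.2.2 = w1 p.2.1) ∨
    (p.1 = true ∧ n ≤ p.2.1.length ∧ p.2.2 = w1 p.2.1 ∧ ∃ i b x, p.2.1 = ystr i b x ∧
      (i, x) ∉ Q' ∧ ¬ kap f i x {q | (false, q) ∈ R} ∧ kap f i x {q | (true, q) ∈ R})

/-! ### the reduction program -/

/-- Put the code of the string on stack `r` in front of stack 2. -/
def emit (r : ℕ) : Cmd :=
  Cmd.seq (Cmd.push 2 false)
    (Cmd.seq (Cmd.loop r (Cmd.pop r Cmd.skip (Cmd.push 31 false) (Cmd.push 31 true)))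
      (Cmd.loop 31 (Cmd.pop 31 Cmd.skip
        (Cmd.seq (Cmd.push r false) (Cmd.seq (Cmd.push 2 false) (Cmd.push 2 true)))
        (Cmd.seq (Cmd.push r true) (Cmd.seq (Cmd.push 2 true) (Cmd.push 2 true))))))

/-- Put `penc x` in front of stack 7 (`x` on stack 0; through stack 14). -/
def pencp : Cmd :=
  Cmd.seq (cpg id 0 14) (Cmd.loop 14 (Cmd.pop 14 Cmd.skip
    (Cmd.seq (Cmd.push 7 false) (Cmd.push 7 true))
    (Cmd.seq (Cmd.push 7 true) (Cmd.push 7 true))))

/-- The common part of the two code strings on stack 7. -/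
def ybase (i : ℕ) : Cmd :=
  Cmd.seq (cpg tt 0 5) (Cmd.seq (Cmd.push 5 true) (Cmd.seq (Cmd.push 5 true)
    (Cmd.seq (rep (Cmd.push 7 true) 5 (i + 2)) (Cmd.seq (Cmd.push 7 false)
      (Cmd.seq pencp (Cmd.seq (Cmd.push 7 false) (iterc (Cmd.push 7 true) (i + 1))))))))

/-- Remove symbols from the unary stack 9 until it is a mark of a stage or empty. -/
def search : Cmd :=
  Cmd.seq (Cmd.push 10 true) (Cmd.loop 10
    (Cmd.query 9 (clr 10) (Cmd.pop 9 (clr 10) Cmd.skip Cmd.skip)))

/-- The program that computes the three queries for the program `i`. -/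
def redp (i : ℕ) : Cmd :=
  Cmd.seq (ybase i) (Cmd.seq (cpg id 7 8)
    (Cmd.seq (Cmd.push 7 false) (Cmd.seq (Cmd.push 7 false)
      (Cmd.seq (Cmd.push 8 true) (Cmd.seq (Cmd.push 8 false)
        (Cmd.seq (cpg tt 7 9) (Cmd.seq (Cmd.pop 9 Cmd.skip Cmd.skip Cmd.skip)
          (Cmd.seq search (Cmd.seq (emit 8) (Cmd.seq (emit 7) (emit 9)))))))))))

/-- Table lookup with the three bits on stack 1. -/
def lf (b : Bool) : Cmd := if b then Cmd.push 2 true else Cmd.skip

def evalp (α : Bool → Bool → Bool → Bool) : Cmd :=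
  Cmd.pop 1 Cmd.skip
    (Cmd.pop 1 Cmd.skip
      (Cmd.pop 1 Cmd.skip (lf (α false false false)) (lf (α false false true)))
      (Cmd.pop 1 Cmd.skip (lf (α false true false)) (lf (α false true true))))
    (Cmd.pop 1 Cmd.skip
      (Cmd.pop 1 Cmd.skip (lf (α true false false)) (lf (α true false true)))
      (Cmd.pop 1 Cmd.skip (lf (α true true false)) (lf (α true true true))))

end Pool.Agent.Helper5.AN
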