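import Pool.Agent.Helper5.AN.Strs

/-!
# Deterministic runs
-/

namespace Pool.Agent.Helper5.AN

open Pool.Agent.Helper5.SX Function

/-- Induction on the first run. -/
theorem run_det {O : Set Str} {c : Cmd} (hc : c.Det) {s s₁ s₂ : Store} {t₁ t₂ : ℕ}
    (h₁ : Run O c s t₁ s₁) (h₂ : Run O c s t₂ s₂) : s₁ = s₂ ∧ t₁ = t₂ := by
  induction h₁ generalizing s₂ t₂ with
  | skip s =>
    cases h₂
    exact ⟨rfl, rfl⟩
  | push r b s =>
    cases h₂
    exact ⟨rfl, rfl⟩
  | seq _ _ ih1 ih2 =>
    cases h₂ with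
    | seq g1 g2 =>
      obtain ⟨e1, e2⟩ := ih1 hc.1 g1
      subst e1
      obtain ⟨e3, e4⟩ := ih2 hc.2 g2
      exact ⟨e3, by rw [e2, e4]⟩
  | pop_nil hs _ ih =>
    cases h₂ with
    | pop_nil _ g =>
      obtain ⟨e1, e2⟩ := ih hc.1 g
      exact ⟨e1, by rw [e2]⟩
    | pop_false hs' g =>
      rw [hs] at hs'
      exact absurd hs' (by simp)
    | pop_true hs' g =>
      rw [hs] at hs'
      exact absurd hs' (by simp)
  | pop_false hs _ ih =>
    cases h₂ with
    | pop_nil hs' g =>
      rw [hs] at hs'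
      exact absurd hs' (by simp)
    | pop_false hs' g =>
      rw [hs] at hs'
      obtain ⟨-, hw⟩ := List.cons.inj hs'
      subst hw
      obtain ⟨e1, e2⟩ := ih hc.2.1 g
      exact ⟨e1, by rw [e2]⟩
    | pop_true hs' g =>
      rw [hs] at hs'
      exact absurd hs' (by simp)
  | pop_true hs _ ih =>
    cases h₂ with
    | pop_nil hs' g =>
      rw [hs] at hs'
      exact absurd hs' (by simp)
    | pop_false hs' g =>
      rw [hs] at hs'
      exact absurd hs' (by simp)
    | pop_true hs' g =>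
      rw [hs] at hs'
      obtain ⟨-, hw⟩ := List.cons.inj hs'
      subst hw
      obtain ⟨e1, e2⟩ := ih hc.2.2 g
      exact ⟨e1, by rw [e2]⟩
  | loop_nil hs =>
    cases h₂ with
    | loop_nil _ => exact ⟨rfl, rfl⟩
    | loop_cons hs' _ _ => exact absurd hs hs'
  | loop_cons hs _ _ ih1 ih2 =>
    cases h₂ with
    | loop_nil hs' => exact absurd hs' hs
    | loop_cons _ g1 g2 =>
      obtain ⟨e1, e2⟩ := ih1 hc g1
      subst e1
      obtain ⟨e3, e4⟩ := ih2 hc g2
      exact ⟨e3, by rw [e2, e4]⟩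
  | query_yes hq _ ih =>
    cases h₂ with
    | query_yes _ g =>
      obtain ⟨e1, e2⟩ := ih hc.1 g
      exact ⟨e1, by rw [e2]⟩
    | query_no hq' _ => exact absurd hq hq'
  | query_no hq _ ih =>
    cases h₂ with
    | query_yes hq' _ => exact absurd hq' hq
    | query_no _ g =>
      obtain ⟨e1, e2⟩ := ih hc.2 g
      exact ⟨e1, by rw [e2]⟩
  | choose_left _ ih => exact absurd hc (by simp [Cmd.Det])
  | choose_right _ ih => exact absurd hc (by simp [Cmd.Det])

/-- From `run_use`. -/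
theorem run_congr {O O' : Set Str} {c : Cmd} {s s' : Store} {t L : ℕ} (h : Run O c s t s')
    (hL : ∀ r, (s r).length ≤ L) (hO : ∀ q : Str, q.length ≤ L + t → (q ∈ O' ↔ q ∈ O)) :
    Run O' c s t s' := by
  obtain ⟨-, Q, -, hQ, h'⟩ := run_use h L hL
  exact h' O' fun q hq => hO q (hQ q hq)

/-- From `run_use`. -/
theorem run_length {O : Set Str} {c : Cmd} {s s' : Store} {t L : ℕ} (h : Run O c s t s')
    (hL : ∀ r, (s r).length ≤ L) (r : ℕ) : (s' r).length ≤ L + t :=
  (run_use h L hL).1 r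

theorem start_length (x a : Str) (r : ℕ) : (start x a r).length ≤ max x.length a.length := by
  unfold start
  split_ifs
  · exact le_max_left _ _
  · exact le_max_right _ _
  · simp

/-- `l` is the list of queries of `c` on `x`, and `c'` decides `x ∈ A` from the answers of `B`. -/
def Cor (O A B : Set Str) (c c' : Cmd) (k : ℕ) (x : Str) (l : List Str) : Prop :=
  (∃ t ≤ x.length ^ k + k, ∃ s' : Store, Run O c (start x []) t s' ∧ s' 2 = lenc l) ∧
    ∃ t ≤ x.length ^ k + k, ∃ s' : Store, Run O c' (start x (ans B l)) t s' ∧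
      (s' 2 ≠ [] ↔ x ∈ A)

/-- The set decided by `cS`. -/
def Dec (O : Set Str) (cS : Cmd) (k : ℕ) : Set Str :=
  {y | ∃ t ≤ y.length ^ k + k, ∃ s' : Store, Run O cS (start y []) t s' ∧ s' 2 ≠ []}

private lemma det_start (x : Str) (r : ℕ) : (start x [] r).length ≤ x.length :=
  (start_length x [] r).trans (by simp)

private lemma det_ans_length (B : Set Str) (l : List Str) : (ans B l).length = l.length := by
  unfold ans
  rw [List.length_map]

private lemma det_ans_congr {B B' : Set Str} {l : List Str} (hB : ∀ y ∈ l, (y ∈ B ↔ y ∈ B')) :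
    ans B l = ans B' l := by
  unfold ans
  exact List.map_congr_left fun y hy => decide_eq_decide.2 (hB y hy)

/-- The queries are bounded (`run_length`, `length_le_lenc`, `mem_length_lt_lenc`). -/
theorem Cor.bound {O A B : Set Str} {c c' : Cmd} {k : ℕ} {x : Str} {l : List Str}
    (h : Cor O A B c c' k x l) :
    l.length ≤ x.length ^ k + k + x.length ∧ ∀ y ∈ l, y.length < x.length ^ k + k + x.length := by
  obtain ⟨⟨t, ht, s', hr, e⟩, -⟩ := h
  have h1 := run_length hr (det_start x) 2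
  rw [e] at h1
  exact ⟨(length_le_lenc l).trans (h1.trans (by omega)),
    fun y hy => lt_of_lt_of_le (mem_length_lt_lenc hy) (h1.trans (by omega))⟩

/-- Same queries in oracles that agree on the short strings. -/
theorem Cor.eq_list {O O' A A' B B' : Set Str} {c c' : Cmd} (hc : c.Det) {k : ℕ} {x : Str}
    {l l' : List Str} (h : Cor O A B c c' k x l) (h' : Cor O' A' B' c c' k x l')
    (hO : ∀ q : Str, q.length ≤ x.length ^ k + k + x.length → (q ∈ O' ↔ q ∈ O)) : l = l' := by
  obtain ⟨⟨t, ht, s₁, hr, e⟩, -⟩ := h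
  obtain ⟨⟨t', ht', s₂, hr', e'⟩, -⟩ := h'
  have h1 : Run O' c (start x []) t s₁ :=
    run_congr hr (det_start x) fun q hq => hO q (hq.trans (by omega))
  obtain ⟨h2, -⟩ := run_det hc h1 hr'
  rw [← h2] at e'
  exact lenc_inj (e.symm.trans e')

/-- Same answer in oracles that agree on the short strings, if the answers agree. -/
theorem Cor.eq_bit {O O' A A' B B' : Set Str} {c c' : Cmd} (hc : c'.Det) {k : ℕ} {x : Str}
    {l : List Str} (h : Cor O A B c c' k x l) (h' : Cor O' A' B' c c' k x l)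
    (hO : ∀ q : Str, q.length ≤ 2 * (x.length ^ k + k + x.length) → (q ∈ O' ↔ q ∈ O))
    (hB : ∀ y ∈ l, (y ∈ B ↔ y ∈ B')) : x ∈ A ↔ x ∈ A' := by
  have hb := h.bound.1
  obtain ⟨-, t, ht, s₁, hr, e⟩ := h
  obtain ⟨-, t', ht', s₂, hr', e'⟩ := h'
  rw [← det_ans_congr hB] at hr'
  have hL : ∀ r, (start x (ans B l) r).length ≤ x.length ^ k + k + x.length := by
    intro r
    refine (start_length _ _ r).trans (max_le (by omega) ?_)
    rw [det_ans_length]
    exact hb
  have h1 : Run O' c' (start x (ans B l)) t s₁ :=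
    run_congr hr hL fun q hq => hO q (hq.trans (by omega))
  obtain ⟨h2, -⟩ := run_det hc h1 hr'
  rw [← h2] at e'
  exact e.symm.trans e'

/-- Passing to another oracle that agrees on the short strings. -/
theorem Cor.congr {O O' A A' B B' : Set Str} {c c' : Cmd} {k : ℕ} {x : Str}
    {l : List Str} (h : Cor O A B c c' k x l)
    (hO : ∀ q : Str, q.length ≤ 2 * (x.length ^ k + k + x.length) → (q ∈ O' ↔ q ∈ O))
    (hA : x ∈ A ↔ x ∈ A') (hB : ∀ y ∈ l, (y ∈ B ↔ y ∈ B')) : Cor O' A' B' c c' k x l := by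
  have hb := h.bound.1
  obtain ⟨⟨t, ht, s₁, hr, e⟩, t', ht', s₂, hr', e'⟩ := h
  have hL : ∀ r, (start x (ans B l) r).length ≤ x.length ^ k + k + x.length := by
    intro r
    refine (start_length _ _ r).trans (max_le (by omega) ?_)
    rw [det_ans_length]
    exact hb
  refine ⟨⟨t, ht, s₁, run_congr hr (det_start x) fun q hq => hO q (hq.trans (by omega)), e⟩,
    t', ht', s₂, ?_, e'.trans hA⟩
  rw [← det_ans_congr hB]
  exact run_congr hr' hL fun q hq => hO q (hq.trans (by omega))

theorem Dec_congr {O O' : Set Str} {cS : Cmd} {k : ℕ} {y : Str}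
    (hO : ∀ q : Str, q.length ≤ y.length ^ k + k + y.length → (q ∈ O' ↔ q ∈ O)) :
    y ∈ Dec O cS k ↔ y ∈ Dec O' cS k := by
  constructor
  · rintro ⟨t, ht, s', hr, h⟩
    exact ⟨t, ht, s', run_congr hr (det_start y) fun q hq => hO q (hq.trans (by omega)), h⟩
  · rintro ⟨t, ht, s', hr, h⟩
    exact ⟨t, ht, s', run_congr hr (det_start y) fun q hq => (hO q (hq.trans (by omega))).symm, h⟩

end Pool.Agent.Helper5.AN
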