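import Pool.Agent.Helper5.AN.Strs

/-!
# Locality
-/

namespace Pool.Agent.Helper5.AN

open Pool.Agent.Helper5.SX Function

private lemma loc_orcl {W W' : Set (Str × Str)} {L : ℕ}
    (h : ∀ p : Str × Str, p.1.length < L → (p ∈ W → p ∈ W')) (q : Str)
    (hq : q.length < 2 ^ L) : q ∈ orcl W → q ∈ orcl W' := by
  rintro (⟨y, w, rfl, h1, h2⟩ | h1)
  · refine Or.inl ⟨y, w, rfl, h (y, w) ?_ h1, h2⟩
    rw [tstr_length] at hq
    have h3 : 2 ^ y.length < 2 ^ L := by omega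
    exact (Nat.pow_lt_pow_iff_right (by norm_num)).1 h3
  · exact Or.inr h1

/-- If `q = tstr y w` with `|w| = 2^|y|` and `|q| < 2^L` then `|y| < L` (`tstr_length`). -/
theorem orcl_congr {W W' : Set (Str × Str)} {L : ℕ}
    (h : ∀ p : Str × Str, p.1.length < L → (p ∈ W ↔ p ∈ W')) (q : Str)
    (hq : q.length < 2 ^ L) : q ∈ orcl W ↔ q ∈ orcl W' :=
  ⟨loc_orcl (fun p hp => (h p hp).1) q hq, loc_orcl (fun p hp => (h p hp).2) q hq⟩

private lemma loc_ee (i : ℕ) (x : Str) : ee i x.length + 1 ≤ yl i x := by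
  unfold ee yl
  have h1 : (x.length + 2) ^ (i + 1) ≤ (x.length + 2) ^ (i + 2) :=
    Nat.pow_le_pow_right (by omega) (by omega)
  omega

/-- `tame_famA`, `UseBd.congr`, `orcl_congr` with `L = ee i |x| + 1 ≤ yl i x`. -/
theorem kap_congr {f : ℕ → Cmd × ℕ} (hf : ∀ i, (f i).2 ≤ i) {i : ℕ} {x : Str}
    {W W' : Set (Str × Str)} (h : ∀ p : Str × Str, p.1.length < yl i x → (p ∈ W ↔ p ∈ W')) :
    kap f i x W ↔ kap f i x W' := by
  unfold kap
  refine UseBd.congr (tame_famA hf i x) fun q hq => ?_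
  exact orcl_congr (fun p hp => (h p (lt_of_lt_of_le hp (loc_ee i x))).symm) q hq

theorem AA_congr {W W' : Set (Str × Str)} {L : ℕ}
    (h : ∀ p : Str × Str, p.1.length < L → (p ∈ W ↔ p ∈ W')) {y : Str} (hy : y.length < L) :
    y ∈ AA W ↔ y ∈ AA W' := by
  unfold AA
  refine exists_congr fun w => ?_
  rw [h (y, w) hy]

/-- `dl m ≤ m - 1` (`Nat.findGreatest_le`), `ystr_length`. -/
theorem ok_congr {f : ℕ → Cmd × ℕ} (hf : ∀ i, (f i).2 ≤ i) {W W' : Set (Str × Str)} {L : ℕ}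
    (h : ∀ p : Str × Str, p.1.length < L → (p ∈ W ↔ p ∈ W')) {i : ℕ} {x : Str}
    (hi : yl i x < L) (hok : Ok f W i x) : Ok f W' i x := by
  have h1 : ∀ b, ystr i b x ∈ AA W ↔ ystr i b x ∈ AA W' := fun b =>
    AA_congr h (by rw [ystr_length]; exact hi)
  have h2 : dl (yl i x) ≤ yl i x - 1 := by
    classical
    unfold dl
    exact Nat.findGreatest_le _
  have h3 : List.replicate (dl (yl i x)) true ∈ AA W ↔
      List.replicate (dl (yl i x)) true ∈ AA W' :=
    AA_congr h (by rw [List.length_replicate]; omega)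
  have h4 : kap f i x W ↔ kap f i x W' :=
    kap_congr hf fun p hp => h p (hp.trans hi)
  unfold Ok at hok ⊢
  rw [← h1 false, ← h1 true, ← h3, ← h4]
  exact hok

end Pool.Agent.Helper5.AN
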