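import Pool.Agent.Helper5.AN.Defs

/-!
# Numbers
-/

namespace Pool.Agent.Helper5.AN

open Pool.Agent.Helper5.SX Function

theorem nine_le_N (j : ℕ) : 9 ≤ N j := by
  induction j with
  | zero => exact le_refl 9
  | succ j ih =>
    change 9 ≤ N j ^ (j + 2)
    calc 9 ≤ N j := ih
      _ = N j ^ 1 := (pow_one _).symm
      _ ≤ N j ^ (j + 2) := Nat.pow_le_pow_right (by omega) (by omega)

theorem N_strictMono : StrictMono N := by
  refine strictMono_nat_of_lt_succ (fun j => ?_)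
  have h := nine_le_N j
  change N j < N j ^ (j + 2)
  calc N j = N j ^ 1 := (pow_one _).symm
    _ < N j ^ (j + 2) := Nat.pow_lt_pow_right (by omega) (by omega)

theorem lt_N (j : ℕ) : j < N j := by
  induction j with
  | zero => exact lt_of_lt_of_le (by norm_num) (nine_le_N 0)
  | succ j ih => exact lt_of_le_of_lt ih (N_strictMono (Nat.lt_succ_self j))

private theorem NumN_succ_le (j : ℕ) : j + 3 ≤ 9 ^ (j + 1) := by
  induction j with
  | zero => norm_num
  | succ j ih =>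
    calc j + 1 + 3 ≤ 9 * (j + 3) := by omega
      _ ≤ 9 * 9 ^ (j + 1) := Nat.mul_le_mul_left 9 ih
      _ = 9 ^ (j + 1 + 1) := by ring

/-- Induction: show `(j + 2) * Nat.log 2 (N j) + ... ≤ N j`, for example via `N j ≥ 9 ^ (j+1)!` or
directly `4 * N (j+1) < 2 ^ N j`: `N (j+2) = N (j+1)^(j+3)` and `N (j+1) ≥ 81 * 9^j`. -/
theorem four_N (j : ℕ) : 4 * N (j + 1) < 2 ^ N j := by
  induction j with
  | zero =>
    change 4 * 9 ^ 2 < 2 ^ 9
    norm_num
  | succ j ih =>
    have h9 := nine_le_N j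
    have h9' := nine_le_N (j + 1)
    change 4 * N (j + 1) ^ (j + 1 + 2) < 2 ^ N (j + 1)
    have h1 : (4 * N (j + 1)) ^ (j + 1 + 2) < (2 ^ N j) ^ (j + 1 + 2) :=
      Nat.pow_lt_pow_left ih (by omega)
    have h2 : 4 * N (j + 1) ^ (j + 1 + 2) ≤ (4 * N (j + 1)) ^ (j + 1 + 2) := by
      rw [mul_pow]
      refine Nat.mul_le_mul_right _ ?_
      calc 4 = 4 ^ 1 := by norm_num
        _ ≤ 4 ^ (j + 1 + 2) := Nat.pow_le_pow_right (by norm_num) (by omega)
    have h3 : N j * (j + 1 + 2) ≤ N (j + 1) := by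
      change N j * (j + 3) ≤ N j ^ (j + 2)
      calc N j * (j + 3) ≤ N j * N j ^ (j + 1) :=
            Nat.mul_le_mul_left _ ((NumN_succ_le j).trans (Nat.pow_le_pow_left h9 _))
        _ = N j ^ (j + 2) := by ring
    calc 4 * N (j + 1) ^ (j + 1 + 2) ≤ (4 * N (j + 1)) ^ (j + 1 + 2) := h2
      _ < (2 ^ N j) ^ (j + 1 + 2) := h1
      _ = 2 ^ (N j * (j + 1 + 2)) := (pow_mul _ _ _).symm
      _ ≤ 2 ^ N (j + 1) := Nat.pow_le_pow_right (by norm_num) h3

theorem dl_eq {j m : ℕ} (h : N j < m) (h' : m ≤ N (j + 1)) : dl m = N j := by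
  classical
  unfold dl
  rw [Nat.findGreatest_eq_iff]
  refine ⟨by omega, fun _ => ⟨j, rfl⟩, fun n h1 h2 ⟨i, hi⟩ => ?_⟩
  subst hi
  have h3 : j < i := N_strictMono.lt_iff_lt.1 h1
  have h4 : N (j + 1) ≤ N i := N_strictMono.monotone h3
  omega

theorem dl_lt {m : ℕ} (h : 0 < m) : dl m < m := by
  classical
  have h1 : dl m ≤ m - 1 := Nat.findGreatest_le _
  omega

theorem nine_le_yl (i : ℕ) (x : Str) : 9 ≤ yl i x := by
  have h1 : 2 ^ 2 ≤ (x.length + 2) ^ (i + 2) :=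
    (Nat.pow_le_pow_left (show 2 ≤ x.length + 2 by omega) 2).trans
      (Nat.pow_le_pow_right (by omega) (by omega))
  have h2 : (2 : ℕ) ^ 2 = 4 := by norm_num
  unfold yl
  omega

/-- The stage `j` is large compared with the exponent `k`. -/
def Big (j k : ℕ) : Prop :=
  N j ^ k + k + N j < N (j + 1) ∧
    2 * ((N j ^ k + k + N j) ^ k + k + (N j ^ k + k + N j)) < 2 ^ N j

private theorem NumN_aux {n k : ℕ} (hn : 9 ≤ n) (hk : k < n) : n ^ k + k + n < n ^ (k + 2) := by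
  have h0 : 1 ≤ n ^ k := Nat.one_le_pow _ _ (by omega)
  have h1 : n ^ k * 1 ≤ n ^ k * n := Nat.mul_le_mul_left _ (by omega)
  have h2 : 1 * n ≤ n ^ k * n := Nat.mul_le_mul_right _ h0
  have h3 : n ^ (k + 2) = n ^ k * n * n := by ring
  have h4 : n ^ k * n * 9 ≤ n ^ k * n * n := Nat.mul_le_mul_left _ hn
  omega

theorem exists_big (k : ℕ) : ∃ J, ∀ j ≥ J, Big j k := by
  refine ⟨(k + 2) ^ 2, fun j hj => ?_⟩
  have hn := nine_le_N j
  have hj1 : (k + 2) * (k + 2) ≤ j := by rw [← pow_two]; exact hj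
  have hj2 : k + 2 ≤ j := le_trans (Nat.le_mul_of_pos_left _ (by omega)) hj1
  have hkn : k < N j := lt_of_le_of_lt (by omega) (lt_N j)
  have hM := NumN_aux hn hkn
  have hN : N (j + 1) = N j ^ (j + 2) := rfl
  refine ⟨lt_of_lt_of_le hM ?_, ?_⟩
  · rw [hN]
    exact Nat.pow_le_pow_right (by omega) (by omega)
  · have h4 := four_N j
    rw [hN] at h4
    have ha : (N j ^ k + k + N j) ^ k ≤ N j ^ j := by
      calc (N j ^ k + k + N j) ^ k ≤ (N j ^ (k + 2)) ^ k := Nat.pow_le_pow_left hM.le _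
        _ = N j ^ ((k + 2) * k) := (pow_mul _ _ _).symm
        _ ≤ N j ^ j := Nat.pow_le_pow_right (by omega)
          (le_trans (Nat.mul_le_mul_left _ (by omega)) hj1)
    have hb : N j ^ k + k + N j ≤ N j ^ j :=
      hM.le.trans (Nat.pow_le_pow_right (by omega) hj2)
    have hc : N j ≤ N j ^ j := by
      calc N j = N j ^ 1 := (pow_one _).symm
        _ ≤ N j ^ j := Nat.pow_le_pow_right (by omega) (by omega)
    have hd : N j ^ (j + 2) = N j ^ j * N j * N j := by ring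
    have he : N j ^ j * N j * 9 ≤ N j ^ j * N j * N j := Nat.mul_le_mul_left _ hn
    have hf : N j ^ j * 9 ≤ N j ^ j * N j := Nat.mul_le_mul_left _ hn
    omega

end Pool.Agent.Helper5.AN
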