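import Pool.Agent.Helper5.AN.Rec
import Pool.Agent.Helper5.AN.Loc
import Pool.Agent.Helper5.AN.NumN

/-!
# Fresh witnesses
-/

namespace Pool.Agent.Helper5.AN

open Pool.Agent.Helper5.SX Function

/-- There are `2^(2^|y|)` candidates `w` and `w ↦ tstr y w` is injective (`tstr_inj`). -/
theorem exists_w {n : ℕ} {F : Finset Str} (hF : F.card < 2 ^ 2 ^ n) {y : Str}
    (hy : n ≤ y.length) : ∃ w : Str, w.length = 2 ^ y.length ∧ tstr y w ∉ F := by
  classical
  set m := 2 ^ y.length with hm
  let φ : (Fin m → Bool) → Str := fun g => tstr y (List.ofFn g)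
  have hφ : Injective φ := by
    intro g g' h
    exact List.ofFn_injective (tstr_inj h).2
  have hcard : (Finset.univ.image φ).card = 2 ^ m := by
    rw [Finset.card_image_of_injective _ hφ]
    simp
  have hlt : F.card < (Finset.univ.image φ).card := by
    rw [hcard]
    refine lt_of_lt_of_le hF ?_
    exact Nat.pow_le_pow_right (by norm_num) (Nat.pow_le_pow_right (by norm_num) hy)
  obtain ⟨q, hq, hqF⟩ : ∃ q ∈ Finset.univ.image φ, q ∉ F := by
    by_contra hcon
    push Not at hcon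
    exact absurd (Finset.card_le_card (fun q hq => hcon q hq)) (not_le.mpr hlt)
  obtain ⟨g, -, rfl⟩ := Finset.mem_image.1 hq
  exact ⟨List.ofFn g, by simp, hqF⟩

/-- The questions below a level: at most `M * 2^M` (`i < M`, `|x| < M`). -/
theorem exists_quest (M : ℕ) : ∃ C : Finset (ℕ × Str), C.card ≤ 2 ^ (2 * M) ∧
    ∀ (i : ℕ) (x : Str), yl i x < M → (i, x) ∈ C := by
  classical
  let S : Finset Str := (Finset.range M).biUnion
    (fun m => Finset.univ.image (fun g : Fin m → Bool => List.ofFn g))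
  have hS : S.card ≤ 2 ^ M := by
    refine le_trans Finset.card_biUnion_le ?_
    have h1 : ∀ m ∈ Finset.range M,
        (Finset.univ.image (fun g : Fin m → Bool => List.ofFn g)).card ≤ 2 ^ m := by
      intro m _
      refine le_trans Finset.card_image_le ?_
      simp
    refine le_trans (Finset.sum_le_sum h1) ?_
    have h2 := Nat.geomSum_eq (le_refl 2) M
    rw [h2]
    simp
  refine ⟨Finset.range M ×ˢ S, ?_, ?_⟩
  · rw [Finset.card_product, Finset.card_range, two_mul, pow_add]
    exact Nat.mul_le_mul (Nat.lt_two_pow_self).le hS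
  · intro i x h
    have hx : x.length < M := by
      unfold yl at h
      omega
    have hi : i < M := by
      unfold yl at h
      omega
    refine Finset.mem_product.2 ⟨Finset.mem_range.2 hi, ?_⟩
    refine Finset.mem_biUnion.2 ⟨x.length, Finset.mem_range.2 hx, ?_⟩
    refine Finset.mem_image.2 ⟨fun k => x.get k, Finset.mem_univ _, ?_⟩
    exact List.ofFn_get x

/-- For each `e ⊆ Q'` (finitely many, `2^|Q'|`) there is exactly one `W0` (`exists_rec`,
`rec_unique` with `μ p = p.1.length`); for each question `(i, x)` below the level `N (j+1)`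
with `kap f i x W0` choose the certificate `U` of `tame_famA hf i x` (at most `2^(ee i |x|)`,
hence at most `2^(N (j+1))` strings). The union `F` of all these certificates has at most
`2^(4 N (j+1)) < 2^(2^(N j))` elements (`exists_quest`, `four_N`). Let `w1 y` be the witness of
`exists_w`. If `O'` contains `orcl W0` and its other strings are of the form `tstr y (w1 y)`,
then `O'` agrees with `orcl W0` on each `U`. -/
theorem exists_fresh {f : ℕ → Cmd × ℕ} (hf : ∀ i, (f i).2 ≤ i) (j : ℕ) (Wb : Set (Str × Str))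
    (Q' : Finset (ℕ × Str)) (hQ : Q'.card ≤ N (j + 1)) :
    ∃ w1 : Str → Str, (∀ y, N j ≤ y.length → (w1 y).length = 2 ^ y.length) ∧
      ∀ e : Set (ℕ × Str), e ⊆ ↑Q' → ∀ W0 : Set (Str × Str),
        (∀ p, p ∈ W0 ↔ Phi0 f (N j) Wb e p {q | q ∈ W0 ∧ q.1.length < p.1.length}) →
        ∀ i x, yl i x < N (j + 1) → kap f i x W0 → ∀ O' : Set Str,
          (∀ q ∈ orcl W0, q ∈ O') →
          (∀ q ∈ O', q ∉ orcl W0 → ∃ y, N j ≤ y.length ∧ q = tstr y (w1 y)) →
          famA f i x O' := by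
  classical
  obtain ⟨C, hC, hCm⟩ := exists_quest (N (j + 1))
  have hrec : ∀ e : Finset (ℕ × Str), ∃ W0 : Set (Str × Str),
      ∀ p, p ∈ W0 ↔ Phi0 f (N j) Wb ↑e p {q | q ∈ W0 ∧ q.1.length < p.1.length} := fun e =>
    exists_rec (fun p : Str × Str => p.1.length) (Phi0 f (N j) Wb ↑e)
  choose Wc hWc using hrec
  have hU : ∀ (e : Finset (ℕ × Str)) (p : ℕ × Str), ∃ U : Finset Str,
      U.card ≤ 2 ^ ee p.1 p.2.length ∧ (kap f p.1 p.2 (Wc e) →
        ∀ O' : Set Str, (∀ q ∈ U, (q ∈ O' ↔ q ∈ orcl (Wc e))) → famA f p.1 p.2 O') := by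
    intro e p
    by_cases hk : kap f p.1 p.2 (Wc e)
    · obtain ⟨U, h1, -, h3⟩ := tame_famA hf p.1 p.2 (orcl (Wc e)) hk
      exact ⟨U, h1, fun _ => h3⟩
    · exact ⟨∅, by simp, fun h => absurd h hk⟩
  choose U hUc hUf using hU
  let C' : Finset (ℕ × Str) := C.filter (fun p => yl p.1 p.2 < N (j + 1))
  let F : Finset Str := Q'.powerset.biUnion (fun e => C'.biUnion (fun p => U e p))
  have hC' : C'.card ≤ 2 ^ (2 * N (j + 1)) := (Finset.card_filter_le _ _).trans hC
  have hcU : ∀ e, ∀ p ∈ C', (U e p).card ≤ 2 ^ N (j + 1) := by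
    intro e p hp
    have h1 : yl p.1 p.2 < N (j + 1) := (Finset.mem_filter.1 hp).2
    have h2 : ee p.1 p.2.length + 1 ≤ yl p.1 p.2 := by
      unfold ee yl
      have h3 : (p.2.length + 2) ^ (p.1 + 1) ≤ (p.2.length + 2) ^ (p.1 + 2) :=
        Nat.pow_le_pow_right (by omega) (by omega)
      omega
    exact (hUc e p).trans (Nat.pow_le_pow_right (by omega) (by omega))
  have hFc : F.card < 2 ^ 2 ^ N j := by
    have h1 : F.card ≤ ∑ e ∈ Q'.powerset, (C'.biUnion (fun p => U e p)).card :=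
      Finset.card_biUnion_le
    have h2 : ∀ e ∈ Q'.powerset, (C'.biUnion (fun p => U e p)).card ≤
        2 ^ (2 * N (j + 1)) * 2 ^ N (j + 1) := by
      intro e _
      refine Finset.card_biUnion_le.trans ((Finset.sum_le_sum (hcU e)).trans ?_)
      rw [Finset.sum_const, smul_eq_mul]
      exact Nat.mul_le_mul_right _ hC'
    have h3 : F.card ≤ 2 ^ N (j + 1) * (2 ^ (2 * N (j + 1)) * 2 ^ N (j + 1)) := by
      refine h1.trans ((Finset.sum_le_sum h2).trans ?_)
      rw [Finset.sum_const, smul_eq_mul, Finset.card_powerset]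
      exact Nat.mul_le_mul_right _ (Nat.pow_le_pow_right (by omega) hQ)
    refine lt_of_le_of_lt h3 ?_
    rw [← pow_add, ← pow_add]
    refine Nat.pow_lt_pow_right (by omega) ?_
    have h4 := four_N j
    omega
  have hw : ∀ y : Str, ∃ w : Str, N j ≤ y.length → w.length = 2 ^ y.length ∧ tstr y w ∉ F := by
    intro y
    by_cases hy : N j ≤ y.length
    · obtain ⟨w, hw⟩ := exists_w hFc hy
      exact ⟨w, fun _ => hw⟩
    · exact ⟨[], fun h => absurd h hy⟩
  choose w1 hw1 using hw
  refine ⟨w1, fun y hy => (hw1 y hy).1, ?_⟩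
  intro e he W0 hW0 i x hi hk O' hO1 hO2
  let e' : Finset (ℕ × Str) := Q'.filter (fun p => p ∈ e)
  have he' : (↑e' : Set (ℕ × Str)) = e := by
    ext p
    simp only [e', Finset.coe_filter]
    exact ⟨fun h => h.2, fun h => ⟨he h, h⟩⟩
  have hWe : W0 = Wc e' := by
    refine rec_unique (μ := fun p : Str × Str => p.1.length) (Φ := Phi0 f (N j) Wb e) hW0 ?_
    intro p
    have h1 := hWc e' p
    rw [he'] at h1
    exact h1
  have hkc : kap f i x (Wc e') := by
    rw [← hWe]
    exact hk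
  refine hUf e' (i, x) hkc O' ?_
  intro q hq
  rw [← hWe]
  refine ⟨fun h1 => ?_, fun h1 => hO1 q h1⟩
  by_contra h2
  obtain ⟨y, hy, rfl⟩ := hO2 q h1 h2
  refine (hw1 y hy).2 ?_
  refine Finset.mem_biUnion.2 ⟨e', Finset.mem_powerset.2 (Finset.filter_subset _ _), ?_⟩
  exact Finset.mem_biUnion.2 ⟨(i, x), Finset.mem_filter.2 ⟨hCm i x hi, hi⟩, hq⟩

end Pool.Agent.Helper5.AN
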