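import Pool.Agent.Helper5.AN.Strs
import Pool.Agent.Helper5.AN.NumN

/-!
# The reduction program
-/

namespace Pool.Agent.Helper5.AN

open Pool.Agent.Helper5.SX Function

private theorem det_cpg (g : Bool → Bool) (r u : ℕ) : (cpg g r u).Det :=
  ⟨⟨trivial, trivial, trivial⟩, trivial, ⟨trivial, trivial⟩, trivial, trivial⟩

private theorem det_clr (r : ℕ) : (clr r).Det := ⟨trivial, trivial, trivial⟩

private theorem det_emit (r : ℕ) : (emit r).Det :=
  ⟨trivial, ⟨trivial, trivial, trivial⟩, trivial, ⟨trivial, trivial, trivial⟩,
    trivial, trivial, trivial⟩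

private theorem det_pencp : pencp.Det :=
  ⟨det_cpg _ _ _, trivial, ⟨trivial, trivial⟩, trivial, trivial⟩

private theorem det_rep {c : Cmd} (hc : c.Det) (r k : ℕ) : (rep c r k).Det := by
  induction k with
  | zero => exact hc
  | succ k ih => exact ⟨det_cpg _ _ _, trivial, trivial, ih⟩

private theorem det_iterc {c : Cmd} (hc : c.Det) (k : ℕ) : (iterc c k).Det := by
  induction k with
  | zero => exact trivial
  | succ k ih => exact ⟨hc, ih⟩

private theorem det_ybase (i : ℕ) : (ybase i).Det :=
  ⟨det_cpg _ _ _, trivial, trivial, det_rep (c := Cmd.push 7 true) trivial _ _, trivial,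
    det_pencp, trivial, det_iterc (c := Cmd.push 7 true) trivial _⟩

private theorem det_search : search.Det :=
  ⟨trivial, det_clr _, det_clr _, trivial, trivial⟩

theorem redp_det (i : ℕ) : (redp i).Det :=
  ⟨det_ybase i, det_cpg _ _ _, trivial, trivial, trivial, trivial, det_cpg _ _ _,
    ⟨trivial, trivial, trivial⟩, det_search, det_emit _, det_emit _, det_emit _⟩

private theorem det_lf (b : Bool) : (lf b).Det := by
  cases b <;> exact trivial

theorem evalp_det (α : Bool → Bool → Bool → Bool) : (evalp α).Det :=
  ⟨trivial, ⟨trivial, ⟨trivial, det_lf _, det_lf _⟩, trivial, det_lf _, det_lf _⟩,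
    trivial, ⟨trivial, det_lf _, det_lf _⟩, trivial, det_lf _, det_lf _⟩

private theorem lf_run (O : Set Str) (b : Bool) (s : Store) (hs : s 2 = []) :
    ∃ t ≤ 1, ∃ s' : Store, Run O (lf b) s t s' ∧ (s' 2 ≠ [] ↔ b = true) := by
  cases b with
  | false => exact ⟨1, le_refl _, s, Run.skip s, by simp [hs]⟩
  | true => exact ⟨1, le_refl _, _, Run.push 2 true s, by simp⟩

private theorem pop_run {O : Set Str} {c₀ c₁ c₂ : Cmd} {s : Store} {b : Bool} {w : Str} {T : ℕ}
    {P : Prop} (hs : s 1 = b :: w)
    (h : ∃ t ≤ T, ∃ s' : Store, Run O (cond b c₂ c₁) (update s 1 w) t s' ∧ (s' 2 ≠ [] ↔ P)) :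
    ∃ t ≤ T + 1, ∃ s' : Store, Run O (Cmd.pop 1 c₀ c₁ c₂) s t s' ∧ (s' 2 ≠ [] ↔ P) := by
  obtain ⟨t, ht, s', hr, hP⟩ := h
  cases b with
  | false => exact ⟨t + 1, Nat.succ_le_succ ht, s', Run.pop_false hs hr, hP⟩
  | true => exact ⟨t + 1, Nat.succ_le_succ ht, s', Run.pop_true hs hr, hP⟩

theorem evalp_run (α : Bool → Bool → Bool → Bool) (O : Set Str) (x : Str) (a b₀ b₁ : Bool) :
    ∃ t ≤ 6, ∃ s' : Store, Run O (evalp α) (start x [a, b₀, b₁]) t s' ∧
      (s' 2 ≠ [] ↔ α a b₀ b₁ = true) := by
  have h : ∃ t ≤ 1 + 1 + 1 + 1, ∃ s' : Store, Run O (evalp α) (start x [a, b₀, b₁]) t s' ∧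
      (s' 2 ≠ [] ↔ α a b₀ b₁ = true) := by
    unfold evalp
    refine pop_run (b := a) (w := [b₀, b₁]) (by simp [start]) ?_
    have key : ∀ (f : Bool → Bool → Bool) (s : Store), s 1 = [b₀, b₁] → s 2 = [] →
        ∃ t ≤ 1 + 1 + 1, ∃ s' : Store, Run O (Cmd.pop 1 Cmd.skip
          (Cmd.pop 1 Cmd.skip (lf (f false false)) (lf (f false true)))
          (Cmd.pop 1 Cmd.skip (lf (f true false)) (lf (f true true)))) s t s' ∧
          (s' 2 ≠ [] ↔ f b₀ b₁ = true) := by
      intro f s hs1 hs2
      refine pop_run (b := b₀) (w := [b₁]) hs1 ?_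
      have key2 : ∀ (g : Bool → Bool) (s : Store), s 1 = [b₁] → s 2 = [] →
          ∃ t ≤ 1 + 1, ∃ s' : Store, Run O (Cmd.pop 1 Cmd.skip (lf (g false)) (lf (g true)))
            s t s' ∧ (s' 2 ≠ [] ↔ g b₁ = true) := by
        intro g s hs1 hs2
        refine pop_run (b := b₁) (w := []) hs1 ?_
        cases b₁ with
        | false => exact lf_run O (g false) _ (by simp [hs2])
        | true => exact lf_run O (g true) _ (by simp [hs2])
      cases b₀ with
      | false => exact key2 (f false) _ (by simp) (by simp [hs2])
      | true => exact key2 (f true) _ (by simp) (by simp [hs2])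
    cases a with
    | false => exact key (α false) _ (by simp) (by simp [start])
    | true => exact key (α true) _ (by simp) (by simp [start])
  obtain ⟨t, ht, h⟩ := h
  exact ⟨t, by omega, h⟩

/-- The second loop of `emit`. -/
private theorem EMT_loop {O : Set Str} {s : Store} {r : ℕ} (hr : r ≠ 31) (hr2 : r ≠ 2) :
    Does O (Cmd.loop 31 (Cmd.pop 31 Cmd.skip
        (Cmd.seq (Cmd.push r false) (Cmd.seq (Cmd.push 2 false) (Cmd.push 2 true)))
        (Cmd.seq (Cmd.push r true) (Cmd.seq (Cmd.push 2 true) (Cmd.push 2 true))))) s
      (update (update (update s 31 []) r ((s 31).reverse ++ s r)) 2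
        ((s 31).reverse.flatMap (fun b => [true, b]) ++ s 2)) True (5 * (s 31).length + 1) := by
  induction hw : s 31 generalizing s with
  | nil =>
    refine Does.congr (does_loop_nil hw) (fun _ => ?_) Iff.rfl
    ext q : 1
    by_cases hq : q = 2
    · subst hq
      simp
    · by_cases hq' : q = r
      · subst hq'
        simp [hq]
      · by_cases hq'' : q = 31
        · subst hq''
          simp [hq', hw]
        · simp [hq, hq', hq'']
  | cons b w ih =>
    have key : ∀ b : Bool, Does O (Cmd.seq (Cmd.push r b) (Cmd.seq (Cmd.push 2 b)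
        (Cmd.push 2 true))) (update s 31 w)
        (update (update (update s 31 w) r (b :: s r)) 2 (true :: b :: s 2)) True 3 := by
      intro b
      refine Does.congr (Does.seq (does_push r b) fun _ => Does.seq (does_push 2 b) fun _ =>
        does_push 2 true) (fun _ => ?_) (by simp)
      ext q : 1
      by_cases hq : q = 2
      · subst hq
        simp [hr2.symm]
      · by_cases hq' : q = r
        · subst hq'
          simp [hq, hr]
        · simp [hq, hq']
    have h1 : Does O (Cmd.pop 31 Cmd.skip
        (Cmd.seq (Cmd.push r false) (Cmd.seq (Cmd.push 2 false) (Cmd.push 2 true)))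
        (Cmd.seq (Cmd.push r true) (Cmd.seq (Cmd.push 2 true) (Cmd.push 2 true)))) s
        (update (update (update s 31 w) r (b :: s r)) 2 (true :: b :: s 2)) True 4 := by
      cases b with
      | false => exact Spec.pop_false hw (key false)
      | true => exact Spec.pop_true hw (key true)
    have h2 := Does.loop_cons (by rw [hw]; simp) h1
      (fun _ => ih (s := update (update (update s 31 w) r (b :: s r)) 2 (true :: b :: s 2))
        (by simp [hr.symm]))
    refine (Does.congr h2 (fun _ => ?_) (by simp)).mono ?_
    · ext q : 1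
      by_cases hq : q = 2
      · subst hq
        simp
      · by_cases hq' : q = r
        · subst hq'
          simp [hq]
        · by_cases hq'' : q = 31
          · subst hq''
            simp [hq']
          · simp [hq, hq', hq'']
    · simp only [List.length_cons]
      omega

/-- See `cpg_does` in SY/Copy.lean for the pattern. -/
theorem emit_does {O : Set Str} {s : Store} {r : ℕ} (h31 : s 31 = []) (hr : r ≠ 31)
    (hr2 : r ≠ 2) :
    Does O (emit r) s
      (update s 2 ((s r).flatMap (fun b => [true, b]) ++ false :: s 2)) True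
      (10 * (s r).length + 10) := by
  have h1 := does_push (O := O) (s := s) 2 false
  have h2 := cpg_aux1 (O := O) (s := update s 2 (false :: s 2)) hr
  rw [update_of_ne hr2, update_of_ne (by omega : (31 : ℕ) ≠ 2), h31, List.append_nil] at h2
  have h3 := EMT_loop (O := O) (s := update (update (update s 2 (false :: s 2)) r []) 31
    ((s r).reverse)) hr hr2
  unfold emit
  refine (Does.congr (Does.seq h1 fun _ => Does.seq h2 fun _ => h3) (fun _ => ?_)
    (by simp)).mono ?_
  · ext q : 1
    by_cases hq : q = 2
    · subst hq
      simp [hr2.symm]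
    · by_cases hq' : q = r
      · subst hq'
        simp [hq, hr]
      · by_cases hq'' : q = 31
        · subst hq''
          simp [hq', h31]
        · simp [hq, hq', hq'']
  · simp
    omega

/-- The loop of `pencp`. -/
private theorem PNC_loop {O : Set Str} {s : Store} :
    Does O (Cmd.loop 14 (Cmd.pop 14 Cmd.skip
        (Cmd.seq (Cmd.push 7 false) (Cmd.push 7 true))
        (Cmd.seq (Cmd.push 7 true) (Cmd.push 7 true)))) s
      (update (update s 14 []) 7 (penc (s 14) (s 7))) True (4 * (s 14).length + 1) := by
  induction hw : s 14 generalizing s with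
  | nil =>
    refine Does.congr (does_loop_nil hw) (fun _ => ?_) Iff.rfl
    ext q : 1
    by_cases hq : q = 7
    · subst hq
      simp [penc]
    · by_cases hq' : q = 14
      · subst hq'
        simp [hw]
      · simp [hq, hq']
  | cons b w ih =>
    have key : ∀ b : Bool, Does O (Cmd.seq (Cmd.push 7 b) (Cmd.push 7 true)) (update s 14 w)
        (update (update s 14 w) 7 (true :: b :: s 7)) True 2 := by
      intro b
      refine Does.congr (Does.seq (does_push 7 b) fun _ => does_push 7 true) (fun _ => ?_)
        (by simp)
      simp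
    have h1 : Does O (Cmd.pop 14 Cmd.skip
        (Cmd.seq (Cmd.push 7 false) (Cmd.push 7 true))
        (Cmd.seq (Cmd.push 7 true) (Cmd.push 7 true))) s
        (update (update s 14 w) 7 (true :: b :: s 7)) True 3 := by
      cases b with
      | false => exact Spec.pop_false hw (key false)
      | true => exact Spec.pop_true hw (key true)
    have h2 := Does.loop_cons (by rw [hw]; simp) h1
      (fun _ => ih (s := update (update s 14 w) 7 (true :: b :: s 7)) (by simp))
    refine (Does.congr h2 (fun _ => ?_) (by simp)).mono ?_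
    · ext q : 1
      by_cases hq : q = 7
      · subst hq
        simp [penc]
      · by_cases hq' : q = 14
        · subst hq'
          simp
        · simp [hq, hq']
    · simp only [List.length_cons]
      omega

theorem pencp_does {O : Set Str} {s : Store} (h14 : s 14 = []) (h31 : s 31 = []) :
    Does O pencp s (update s 7 (penc (s 0) (s 7))) True (20 * (s 0).length + 20) := by
  have h1 := cpg_does (O := O) (s := s) id (r := 0) (u := 14) h31 (by omega) (by omega) (by omega)
  rw [h14, List.append_nil, List.map_id] at h1
  have h2 := PNC_loop (O := O) (s := update s 14 (s 0))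
  unfold pencp
  refine (Does.congr (Does.seq h1 fun _ => h2) (fun _ => ?_) (by simp)).mono ?_
  · ext q : 1
    by_cases hq : q = 7
    · subst hq
      simp
    · by_cases hq' : q = 14
      · subst hq'
        simp [h14]
      · simp [hq, hq']
  · rw [update_self]
    omega

private theorem RPD_loop {O : Set Str} {k r u n : ℕ} (hr : r < 30) (hu : u < 30)
    (hru : r ≠ u)
    (ih : ∀ (s : Store), s 31 = [] → (∀ i < k, s (34 + 2 * i) = []) → (s r).length = n →
      Does O (rep (Cmd.push u true) r k) s
        (update s u (List.replicate (n ^ k) true ++ s u)) True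
        (20 * (n + 1) ^ (k + 1))) (c : ℕ) :
    ∀ (s : Store), s 31 = [] → (∀ i < k, s (34 + 2 * i) = []) → (s r).length = n →
      s (34 + 2 * k) = List.replicate c true →
      Does O (Cmd.loop (34 + 2 * k)
          (Cmd.pop (34 + 2 * k) Cmd.skip Cmd.skip (rep (Cmd.push u true) r k))) s
        (update (update s (34 + 2 * k) []) u
          (List.replicate (n ^ k * c) true ++ s u)) True
        (c * (2 + 20 * (n + 1) ^ (k + 1)) + 1) := by
  induction c with
  | zero =>
    intro s h31 hi hn hc
    have hc' : s (34 + 2 * k) = [] := by simpa using hc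
    refine (Does.congr (does_loop_nil hc') (fun _ => ?_) Iff.rfl).mono (by simp)
    ext q : 1
    by_cases hq : q = u
    · subst hq
      simp
    · by_cases hq' : q = 34 + 2 * k
      · subst hq'
        simp [hq, hc']
      · simp [hq, hq']
  | succ c ihc =>
    intro s h31 hi hn hc
    have hc' : s (34 + 2 * k) = true :: List.replicate c true := by
      rw [hc, List.replicate_succ]
    have e31 : (31 : ℕ) ≠ 34 + 2 * k := by omega
    have eu : u ≠ 34 + 2 * k := by omega
    have er : r ≠ 34 + 2 * k := by omega
    have eu31 : (31 : ℕ) ≠ u := by omega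
    have h1 := ih (update s (34 + 2 * k) (List.replicate c true))
      (by rw [update_of_ne e31]; exact h31)
      (fun i hik => by rw [update_of_ne (by omega)]; exact hi i hik)
      (by rw [update_of_ne er]; exact hn)
    rw [update_of_ne eu] at h1
    have h2 : Does O (Cmd.pop (34 + 2 * k) Cmd.skip Cmd.skip (rep (Cmd.push u true) r k)) s
        (update (update s (34 + 2 * k) (List.replicate c true)) u
          (List.replicate (n ^ k) true ++ s u)) True
        (20 * (n + 1) ^ (k + 1) + 1) := Spec.pop_true hc' h1
    have h3 := ihc (update (update s (34 + 2 * k) (List.replicate c true)) u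
        (List.replicate (n ^ k) true ++ s u))
      (by rw [update_of_ne eu31, update_of_ne e31]; exact h31)
      (fun i hik => by rw [update_of_ne (by omega), update_of_ne (by omega)]; exact hi i hik)
      (by rw [update_of_ne hru, update_of_ne er]; exact hn)
      (by rw [update_of_ne eu.symm, update_self])
    have h4 := Does.loop_cons (by rw [hc']; simp) h2 (fun _ => h3)
    refine (Does.congr h4 (fun _ => ?_) (by simp)).mono ?_
    · ext q : 1
      by_cases hq : q = u
      · subst hq
        rw [update_self, update_self, update_self, ← List.append_assoc, List.replicate_append_replicate,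
          ← Nat.mul_succ]
      · by_cases hq' : q = 34 + 2 * k
        · subst hq'
          simp [hq]
        · simp [hq, hq']
    · generalize 20 * (n + 1) ^ (k + 1) = b
      have h7 : (c + 1) * (2 + b) = c * (2 + b) + (2 + b) := by ring
      rw [h7]
      omega

private theorem RPD_rep (O : Set Str) {r u n : ℕ} (hr : r < 30) (hu : u < 30)
    (hru : r ≠ u) (k : ℕ) :
    ∀ (s : Store), s 31 = [] → (∀ i < k, s (34 + 2 * i) = []) → (s r).length = n →
      Does O (rep (Cmd.push u true) r k) s
        (update s u (List.replicate (n ^ k) true ++ s u)) True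
        (20 * (n + 1) ^ (k + 1)) := by
  induction k with
  | zero =>
    intro s _ _ _
    have h1 := does_push (O := O) (s := s) u true
    refine (Does.congr (c := Cmd.push u true) h1 (fun _ => ?_) Iff.rfl).mono ?_
    · rw [pow_zero]
      rfl
    · rw [zero_add, pow_one]
      omega
  | succ k ih =>
    intro s h31 hi hn
    have e31 : (31 : ℕ) ≠ 34 + 2 * k := by omega
    have eu : u ≠ 34 + 2 * k := by omega
    have er : r ≠ 34 + 2 * k := by omega
    have h1 := cpg_does (O := O) (s := s) tt (r := r) (u := 34 + 2 * k) h31 er (by omega)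
      (by omega)
    have hm : (s r).map tt ++ s (34 + 2 * k) = List.replicate n true := by
      rw [hi k (by omega), List.append_nil, ← hn]
      change List.map (fun _ => true) (s r) = _
      rw [List.map_const']
    rw [hm] at h1
    have h2 := RPD_loop hr hu hru ih n (update s (34 + 2 * k) (List.replicate n true))
      (by rw [update_of_ne e31]; exact h31)
      (fun i hik => by rw [update_of_ne (by omega)]; exact hi i (by omega))
      (by rw [update_of_ne er]; exact hn) (by rw [update_self])
    have h3 := Does.seq h1 (fun _ => h2)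
    change Does O (Cmd.seq (cpg tt r (34 + 2 * k)) (Cmd.loop (34 + 2 * k)
      (Cmd.pop (34 + 2 * k) Cmd.skip Cmd.skip (rep (Cmd.push u true) r k)))) _ _ _ _
    refine (Does.congr h3 (fun _ => ?_) (by simp)).mono ?_
    · have hk : s (34 + 2 * k) = [] := hi k (by omega)
      rw [← pow_succ]
      ext q : 1
      by_cases hq : q = u
      · subst hq
        simp [eu]
      · by_cases hq' : q = 34 + 2 * k
        · subst hq'
          simp [hq, hk]
        · simp [hq, hq']
    · rw [hn]
      have h7 : n + 1 ≤ (n + 1) ^ (k + 1) := Nat.le_self_pow (by omega) _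
      have h8 : (n + 1) ^ (k + 1 + 1) = (n + 1) ^ (k + 1) * (n + 1) := pow_succ _ _
      rw [h8]
      generalize (n + 1) ^ (k + 1) = p at h7 ⊢
      nlinarith

/-- See `CLK_rep` in SY/Clock.lean for the pattern. -/
theorem rep_push_does {O : Set Str} (k : ℕ) {s : Store} {r u : ℕ} (hr : r < 30) (hu : u < 30)
    (hru : r ≠ u) (h31 : s 31 = []) (hi : ∀ i < k, s (34 + 2 * i) = []) :
    Does O (rep (Cmd.push u true) r k) s
      (update s u (List.replicate ((s r).length ^ k) true ++ s u)) True
      (20 * ((s r).length + 1) ^ (k + 1)) := by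
  exact RPD_rep O hr hu hru k s h31 hi rfl

private theorem spec_query_yes {O : Set Str} {c d : Cmd} {s : Store} {R : Store → Prop}
    {T r : ℕ} (hs : s r ∈ O) (h : Spec O c s R T) : Spec O (Cmd.query r c d) s R (T + 1) := by
  constructor
  · intro t s' hr
    cases hr with
    | query_yes h1 h2 => exact h.1 _ _ h2
    | query_no h1 h2 => exact absurd hs h1
  · intro s' h1
    obtain ⟨t, ht, hr⟩ := h.2 s' h1
    exact ⟨t + 1, by omega, Run.query_yes hs hr⟩

private theorem spec_query_no {O : Set Str} {c d : Cmd} {s : Store} {R : Store → Prop}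
    {T r : ℕ} (hs : s r ∉ O) (h : Spec O d s R T) : Spec O (Cmd.query r c d) s R (T + 1) := by
  constructor
  · intro t s' hr
    cases hr with
    | query_yes h1 h2 => exact absurd h1 hs
    | query_no h1 h2 => exact h.1 _ _ h2
  · intro s' h1
    obtain ⟨t, ht, hr⟩ := h.2 s' h1
    exact ⟨t + 1, by omega, Run.query_no hs hr⟩

open Classical in
/-- The loop of `search`. -/
private theorem search_loop {W : Set (Str × Str)} (k : ℕ) : ∀ s : Store, s 10 = [true] →
    s 9 = List.replicate k true →
    Does (orcl W) (Cmd.loop 10
      (Cmd.query 9 (clr 10) (Cmd.pop 9 (clr 10) Cmd.skip Cmd.skip))) s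
      (update (update s 10 []) 9
        (List.replicate (Nat.findGreatest (fun n => ∃ j, n = N j) k) true)) True (4 * k + 8) := by
  induction k with
  | zero =>
    intro s h10 h9
    have hz : ¬ ∃ j, 0 = N j := by
      rintro ⟨j, hj⟩
      have := lt_N j
      omega
    have hq : s 9 ∉ orcl W := by
      rw [h9, rep_mem_orcl]
      exact hz
    have h1 : Does (orcl W) (Cmd.query 9 (clr 10) (Cmd.pop 9 (clr 10) Cmd.skip Cmd.skip)) s
        (update s 10 []) True 6 := by
      refine spec_query_no hq (Spec.pop_nil (by rw [h9]; rfl) ?_)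
      have := clr_does (O := orcl W) (s := s) 10
      rw [h10] at this
      exact this
    have h2 := Does.loop_cons (r := 10) (by rw [h10]; simp) h1
      (fun _ => does_loop_nil (s := update s 10 []) (by simp))
    refine (Does.congr h2 (fun _ => ?_) (by simp)).mono (by omega)
    rw [Nat.findGreatest_zero]
    have e : (update s 10 [] : Store) 9 = List.replicate 0 true := by
      rw [update_of_ne (by omega), h9]
    rw [← e, update_eq_self]
  | succ k ih =>
    intro s h10 h9
    by_cases hk : ∃ j, k + 1 = N j
    · have hq : s 9 ∈ orcl W := by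
        rw [h9, rep_mem_orcl]
        exact hk
      have h1 : Does (orcl W) (Cmd.query 9 (clr 10) (Cmd.pop 9 (clr 10) Cmd.skip Cmd.skip)) s
          (update s 10 []) True 5 := by
        refine spec_query_yes hq ?_
        have := clr_does (O := orcl W) (s := s) 10
        rw [h10] at this
        exact this
      have h2 := Does.loop_cons (r := 10) (by rw [h10]; simp) h1
        (fun _ => does_loop_nil (s := update s 10 []) (by simp))
      refine (Does.congr h2 (fun _ => ?_) (by simp)).mono (by omega)
      rw [Nat.findGreatest_eq (P := fun n => ∃ j, n = N j) hk]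
      have e : (update s 10 [] : Store) 9 = List.replicate (k + 1) true := by
        rw [update_of_ne (by omega), h9]
      rw [← e, update_eq_self]
    · have hq : s 9 ∉ orcl W := by
        rw [h9, rep_mem_orcl]
        exact hk
      have h1 : Does (orcl W) (Cmd.query 9 (clr 10) (Cmd.pop 9 (clr 10) Cmd.skip Cmd.skip)) s
          (update s 9 (List.replicate k true)) True 3 :=
        spec_query_no hq (Spec.pop_true (by rw [h9]; rfl) does_skip)
      have h2 := Does.loop_cons (r := 10) (by rw [h10]; simp) h1
        (fun _ => ih (update s 9 (List.replicate k true))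
          (by rw [update_of_ne (by omega), h10]) (by rw [update_self]))
      refine (Does.congr h2 (fun _ => ?_) (by simp)).mono (by omega)
      rw [Nat.findGreatest_of_not (P := fun n => ∃ j, n = N j) hk]
      rw [update_comm (show (10 : ℕ) ≠ 9 by omega), update_idem]
      rw [update_comm (show (10 : ℕ) ≠ 9 by omega)]

/-- `rep_mem_orcl`, `Nat.findGreatest`; the string `[]` is not in the oracle. -/
theorem search_does {W : Set (Str × Str)} {s : Store} {m : ℕ} (h10 : s 10 = [])
    (h9 : s 9 = List.replicate (m - 1) true) :
    Does (orcl W) search s (update s 9 (List.replicate (dl m) true)) True (20 * (m + 1)) := by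
  have d1 := does_push (O := orcl W) (s := s) 10 true
  rw [h10] at d1
  have d2 := search_loop (W := W) (m - 1) (update s 10 [true]) (by rw [update_self])
    (by rw [update_of_ne (by omega), h9])
  unfold search
  refine (Does.congr (Does.seq d1 fun _ => d2) (fun _ => ?_) (by simp)).mono (by omega)
  rw [update_idem]
  have e : update s 10 [] = s := by rw [← h10, update_eq_self]
  rw [e]
  unfold dl
  congr 3

private theorem ybase_iterc {O : Set Str} (u : ℕ) (b : Bool) (k : ℕ) : ∀ s : Store,
    Does O (iterc (Cmd.push u b) k) s (update s u (List.replicate k b ++ s u)) True (k + 1) := by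
  induction k with
  | zero =>
    intro s
    refine (Does.congr does_skip (fun _ => ?_) Iff.rfl).mono (by omega)
    rw [List.replicate_zero, List.nil_append, update_eq_self]
  | succ k ih =>
    intro s
    have h1 := Does.seq (does_push (O := O) (s := s) u b) (fun _ => ih (update s u (b :: s u)))
    change Does O (Cmd.seq (Cmd.push u b) (iterc (Cmd.push u b) k)) _ _ _ _
    refine (Does.congr h1 (fun _ => ?_) (by simp)).mono (by omega)
    rw [update_self, update_idem]
    congr 1
    rw [List.replicate_succ', List.append_assoc]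
    rfl

/-- From `cpg_does`, `does_push`, `rep_push_does`, `pencp_does`. -/
theorem ybase_does {O : Set Str} (i : ℕ) (x : Str) :
    Does O (ybase i) (start x [])
      (update (update (start x []) 5 (List.replicate (x.length + 2) true)) 7
        (List.replicate (i + 1) true ++
          false :: penc x (false :: List.replicate ((x.length + 2) ^ (i + 2)) true))) True
      (100 * (x.length + 3) ^ (i + 3) + i) := by
  obtain ⟨n, hn⟩ : ∃ n, n = x.length := ⟨_, rfl⟩
  obtain ⟨s₀, hs₀⟩ : ∃ s₀, s₀ = start x [] := ⟨_, rfl⟩
  have h0 : s₀ 0 = x := by rw [hs₀]; rfl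
  have hq : ∀ q, q ≠ 0 → s₀ q = [] := by
    intro q hq
    rw [hs₀]
    unfold start
    rw [if_neg hq]
    split_ifs <;> rfl
  rw [← hs₀, ← hn]
  have d1 := cpg_does (O := O) (s := s₀) tt (hq 31 (by omega)) (show 0 ≠ 5 by omega)
    (show 0 ≠ 31 by omega) (show 5 ≠ 31 by omega)
  rw [h0, hq 5 (by omega), List.append_nil, ← hn] at d1
  have e1 : List.map tt x = List.replicate n true := by
    rw [hn]
    change List.map (Function.const Bool true) x = _
    exact List.map_const
  rw [e1] at d1
  have d2 := does_push (O := O) (s := update s₀ 5 (List.replicate n true)) 5 true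
  rw [update_self, update_idem, ← List.replicate_succ] at d2
  have d3 := does_push (O := O) (s := update s₀ 5 (List.replicate (n + 1) true)) 5 true
  rw [update_self, update_idem, ← List.replicate_succ] at d3
  obtain ⟨S, hS⟩ : ∃ S, S = update s₀ 5 (List.replicate (n + 1 + 1) true) := ⟨_, rfl⟩
  rw [← hS] at d3
  have g : ∀ q, q ≠ 5 → S q = s₀ q := fun q hq' => by rw [hS, update_of_ne hq']
  have g5 : S 5 = List.replicate (n + 1 + 1) true := by rw [hS, update_self]
  have d4 := rep_push_does (O := O) (i + 2) (s := S) (r := 5) (u := 7) (by omega) (by omega)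
    (by omega) (by rw [g _ (by omega), hq _ (by omega)])
    (fun j _ => by rw [g _ (by omega), hq _ (by omega)])
  rw [g5, List.length_replicate, g 7 (by omega), hq 7 (by omega), List.append_nil] at d4
  obtain ⟨w, hw⟩ : ∃ w, w = List.replicate ((n + 1 + 1) ^ (i + 2)) true := ⟨_, rfl⟩
  rw [← hw] at d4
  have d5 := does_push (O := O) (s := update S 7 w) 7 false
  rw [update_self, update_idem] at d5
  have d6 := pencp_does (O := O) (s := update S 7 (false :: w))
    (by rw [update_of_ne (by omega), g _ (by omega), hq _ (by omega)])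
    (by rw [update_of_ne (by omega), g _ (by omega), hq _ (by omega)])
  rw [update_self, update_idem, update_of_ne (show 0 ≠ 7 by omega), g 0 (by omega), h0, ← hn] at d6
  have d7 := does_push (O := O) (s := update S 7 (penc x (false :: w))) 7 false
  rw [update_self, update_idem] at d7
  have d8 := ybase_iterc (O := O) 7 true (i + 1) (update S 7 (false :: penc x (false :: w)))
  rw [update_self, update_idem] at d8
  have h := Does.seq d1 (fun _ => Does.seq d2 (fun _ => Does.seq d3 (fun _ => Does.seq d4
    (fun _ => Does.seq d5 (fun _ => Does.seq d6 (fun _ => Does.seq d7 (fun _ => d8)))))))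
  unfold ybase
  refine (Does.congr h (fun _ => ?_) (by simp)).mono ?_
  · rw [hS, hw]
  · have h1 : n + 3 ≤ (n + 3) ^ (i + 3) := Nat.le_self_pow (by omega) _
    have e2 : n + 1 + 1 + 1 = n + 3 := by omega
    have e3 : i + 2 + 1 = i + 3 := by omega
    rw [e2, e3]
    omega

private theorem redp_num (C b c : ℕ) : ∃ K : ℕ, ∀ n : ℕ, C * (n + 3) ^ b + c ≤ n ^ K + K := by
  refine ⟨(C + 3 * b) + (c + C * 4 ^ b), fun n => ?_⟩
  rcases Nat.lt_or_ge n 2 with hn | hn
  · have h1 : C * (n + 3) ^ b ≤ C * 4 ^ b :=
      Nat.mul_le_mul_left _ (Nat.pow_le_pow_left (by omega) _)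
    omega
  · have h1 : n + 3 ≤ n ^ 3 := by
      have e : n ^ 3 = n * n * n := by ring
      rw [e]
      have h2 : 2 * 2 ≤ n * n := Nat.mul_le_mul hn hn
      have h3 : 2 * 2 * n ≤ n * n * n := Nat.mul_le_mul_right _ h2
      omega
    have h2 : (n + 3) ^ b ≤ n ^ (3 * b) := by
      rw [pow_mul]
      exact Nat.pow_le_pow_left h1 _
    have h3 : C ≤ n ^ C :=
      (Nat.lt_two_pow_self).le.trans (Nat.pow_le_pow_left hn _)
    have h4 : C * (n + 3) ^ b ≤ n ^ (C + 3 * b) := by
      rw [pow_add]
      exact Nat.mul_le_mul h3 h2
    have h5 : n ^ (C + 3 * b) ≤ n ^ ((C + 3 * b) + (c + C * 4 ^ b)) :=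
      Nat.pow_le_pow_right (by omega) (by omega)
    omega

private theorem redp_penc_length (x w : Str) : (penc x w).length = 2 * x.length + w.length := by
  induction x generalizing w with
  | nil => simp [penc]
  | cons b x ih =>
    rw [penc, ih]
    simp only [List.length_cons]
    ring

/-- The time is bounded by a polynomial in `|x|` (all stacks have length at most `yl i x`). -/
theorem redp_run (i : ℕ) : ∃ K : ℕ, ∀ (W : Set (Str × Str)) (x : Str),
    ∃ t ≤ x.length ^ K + K, ∃ s' : Store, Run (orcl W) (redp i) (start x []) t s' ∧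
      s' 2 = lenc [List.replicate (dl (yl i x)) true, ystr i false x, ystr i true x] := by
  obtain ⟨K, hK⟩ := redp_num 400 (i + 3) (100 * i + 1000)
  refine ⟨K, fun W x => ?_⟩
  obtain ⟨n, hn⟩ : ∃ n, n = x.length := ⟨_, rfl⟩
  obtain ⟨s₀, hs₀⟩ : ∃ s₀, s₀ = start x [] := ⟨_, rfl⟩
  have hq : ∀ q, q ≠ 0 → s₀ q = [] := by
    intro q hq
    rw [hs₀]
    unfold start
    rw [if_neg hq]
    split_ifs <;> rfl
  obtain ⟨A, hA⟩ : ∃ A, A = List.replicate (x.length + 2) true := ⟨_, rfl⟩
  obtain ⟨B, hB⟩ : ∃ B, B = List.replicate (i + 1) true ++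
    false :: penc x (false :: List.replicate ((x.length + 2) ^ (i + 2)) true) := ⟨_, rfl⟩
  have hy : ∀ b, ystr i b x = false :: b :: B := fun b => by rw [hB]; rfl
  have hBl : B.length + 2 = yl i x := by
    rw [← ystr_length i false x, hy]
    rfl
  obtain ⟨m, hm⟩ : ∃ m, m = yl i x := ⟨_, rfl⟩
  have d1 := ybase_does (O := orcl W) i x
  rw [← hs₀, ← hA, ← hB, ← hn] at d1
  obtain ⟨S, hS⟩ : ∃ S, S = update s₀ 5 A := ⟨_, rfl⟩
  rw [← hS] at d1
  have g : ∀ q, q ≠ 0 → q ≠ 5 → S q = [] := fun q h0 hq' => by
    rw [hS, update_of_ne hq', hq q h0]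
  -- copy
  have d2 := cpg_does (O := orcl W) (s := update S 7 B) id (r := 7) (u := 8)
    (by rw [update_of_ne (by omega), g _ (by omega) (by omega)]) (by omega) (by omega) (by omega)
  rw [update_self, List.map_id, update_of_ne (show (8 : ℕ) ≠ 7 by omega), g 8 (by omega) (by omega),
    List.append_nil] at d2
  have d3 := does_push (O := orcl W) (s := update (update S 7 B) 8 B) 7 false
  rw [update_of_ne (show (7 : ℕ) ≠ 8 by omega), update_self,
    update_comm (show (8 : ℕ) ≠ 7 by omega), update_idem] at d3
  have d4 := does_push (O := orcl W) (s := update (update S 7 (false :: B)) 8 B) 7 false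
  rw [update_of_ne (show (7 : ℕ) ≠ 8 by omega), update_self,
    update_comm (show (8 : ℕ) ≠ 7 by omega), update_idem, ← hy false] at d4
  have d5 := does_push (O := orcl W) (s := update (update S 7 (ystr i false x)) 8 B) 8 true
  rw [update_self, update_idem] at d5
  have d6 := does_push (O := orcl W) (s := update (update S 7 (ystr i false x)) 8 (true :: B)) 8
    false
  rw [update_self, update_idem, ← hy true] at d6
  obtain ⟨U, hU⟩ : ∃ U, U = update (update S 7 (ystr i false x)) 8 (ystr i true x) := ⟨_, rfl⟩
  rw [← hU] at d6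
  have u7 : U 7 = ystr i false x := by
    rw [hU, update_of_ne (by omega), update_self]
  have u8 : U 8 = ystr i true x := by rw [hU, update_self]
  have u' : ∀ q, q ≠ 0 → q ≠ 5 → q ≠ 7 → q ≠ 8 → U q = [] := fun q h0 h5 h7 h8 => by
    rw [hU, update_of_ne h8, update_of_ne h7, g q h0 h5]
  have d7 := cpg_does (O := orcl W) (s := U) tt (r := 7) (u := 9)
    (u' 31 (by omega) (by omega) (by omega) (by omega)) (by omega) (by omega) (by omega)
  have e7 : (U 7).map tt ++ U 9 = true :: List.replicate (m - 1) true := by
    rw [u' 9 (by omega) (by omega) (by omega) (by omega), List.append_nil, u7,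
      ← List.replicate_succ]
    have h1 : m - 1 + 1 = (ystr i false x).length := by
      rw [ystr_length, ← hm]
      have := nine_le_yl i x
      omega
    rw [h1]
    change List.map (Function.const Bool true) _ = _
    exact List.map_const
  rw [e7, u7, ystr_length, ← hm] at d7
  have d8 : Does (orcl W) (Cmd.pop 9 Cmd.skip Cmd.skip Cmd.skip)
      (update U 9 (true :: List.replicate (m - 1) true))
      (update U 9 (List.replicate (m - 1) true)) True 2 := by
    refine Spec.pop_true (w := List.replicate (m - 1) true) (by rw [update_self]) ?_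
    have := does_skip (O := orcl W)
      (s := update (update U 9 (true :: List.replicate (m - 1) true)) 9
        (List.replicate (m - 1) true))
    rw [update_idem] at this ⊢
    exact this
  have d9 := search_does (W := W) (s := update U 9 (List.replicate (m - 1) true)) (m := m)
    (by rw [update_of_ne (by omega), u' 10 (by omega) (by omega) (by omega) (by omega)])
    (by rw [update_self])
  rw [update_idem] at d9
  obtain ⟨V, hV⟩ : ∃ V, V = update U 9 (List.replicate (dl m) true) := ⟨_, rfl⟩
  rw [← hV] at d9
  have v7 : V 7 = ystr i false x := by rw [hV, update_of_ne (by omega), u7]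
  have v8 : V 8 = ystr i true x := by rw [hV, update_of_ne (by omega), u8]
  have v9 : V 9 = List.replicate (dl m) true := by rw [hV, update_self]
  have v31 : V 31 = [] := by
    rw [hV, update_of_ne (by omega), u' 31 (by omega) (by omega) (by omega) (by omega)]
  have v2 : V 2 = [] := by
    rw [hV, update_of_ne (by omega), u' 2 (by omega) (by omega) (by omega) (by omega)]
  have d10 := emit_does (O := orcl W) (s := V) (r := 8) v31 (by omega) (by omega)
  rw [v2, v8, ystr_length, ← hm] at d10
  obtain ⟨a, ha⟩ : ∃ a, a = (ystr i true x).flatMap (fun b => [true, b]) ++ [false] := ⟨_, rfl⟩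
  rw [← ha] at d10
  have d11 := emit_does (O := orcl W) (s := update V 2 a) (r := 7)
    (by rw [update_of_ne (by omega), v31]) (by omega) (by omega)
  rw [update_of_ne (show (7 : ℕ) ≠ 2 by omega), update_self, update_idem, v7, ystr_length,
    ← hm] at d11
  obtain ⟨b, hb⟩ : ∃ b, b = (ystr i false x).flatMap (fun b => [true, b]) ++ false :: a :=
    ⟨_, rfl⟩
  rw [← hb] at d11
  have d12 := emit_does (O := orcl W) (s := update V 2 b) (r := 9)
    (by rw [update_of_ne (by omega), v31]) (by omega) (by omega)
  rw [update_of_ne (show (9 : ℕ) ≠ 2 by omega), update_self, update_idem, v9,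
    List.length_replicate] at d12
  have h := Does.seq d1 (fun _ => Does.seq d2 (fun _ => Does.seq d3 (fun _ => Does.seq d4
    (fun _ => Does.seq d5 (fun _ => Does.seq d6 (fun _ => Does.seq d7 (fun _ => Does.seq d8
    (fun _ => Does.seq d9 (fun _ => Does.seq d10 (fun _ => Does.seq d11
    (fun _ => d12)))))))))))
  obtain ⟨t, ht, hr⟩ := h.2 _ ⟨rfl, by simp⟩
  rw [hs₀] at hr
  refine ⟨t, ht.trans ?_, _, hr, ?_⟩
  · refine le_trans ?_ (hK x.length)
    have h1 : dl m ≤ m - 1 := by
      classical
      unfold dl
      exact Nat.findGreatest_le _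
    have h2 : m = (n + 2) ^ (i + 2) + 2 * n + i + 5 := by rw [hm, hn]; rfl
    have h3 : (n + 2) ^ (i + 2) ≤ (n + 3) ^ (i + 3) :=
      (Nat.pow_le_pow_left (by omega) _).trans (Nat.pow_le_pow_right (by omega) (by omega))
    have h4 : n + 3 ≤ (n + 3) ^ (i + 3) := Nat.le_self_pow (by omega) _
    rw [← hn]
    generalize (n + 3) ^ (i + 3) = p at h3 h4 ⊢
    omega
  · rw [update_self, hb, ha, hm]
    rfl

end Pool.Agent.Helper5.AN
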