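import Pool.Agent.Helper5.AN.Det
import Pool.Agent.Helper5.AN.Loc
import Pool.Agent.Helper5.AN.NumN

/-!
# The requirements
-/

namespace Pool.Agent.Helper5.AN

open Pool.Agent.Helper5.SX Function

/-- The autoreduction is correct at `x`. -/
def CorA (W : Set (Str × Str)) (c c' : Cmd) (k : ℕ) (x : Str) : Prop :=
  ∃ l : List Str, x ∉ l ∧ Cor (orcl W) (AA W) (AA W) c c' k x l

/-- The reductions between the two parts are correct at `x`. -/
def CorM (W : Set (Str × Str)) (cS c₁ c₁' c₂ c₂' : Cmd) (k : ℕ) (x : Str) : Prop :=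
  (x ∈ Dec (orcl W) cS k →
      ∃ l : List Str, Cor (orcl W) (AA W) (AA W \ Dec (orcl W) cS k) c₁ c₁' k x l) ∧
    (x ∉ Dec (orcl W) cS k →
      ∃ l : List Str, Cor (orcl W) (AA W) (AA W ∩ Dec (orcl W) cS k) c₂ c₂' k x l)

private theorem CorA_len (j : ℕ) : (dN j).length = N j := List.length_replicate

private theorem CorA_num {j k : ℕ} (hb : Big j k) : 2 * (N j ^ k + k + N j) < 2 ^ N j := by
  have h := hb.2
  omega

private theorem CorA_orcl {j k : ℕ} (hb : Big j k) {W W' : Set (Str × Str)}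
    (h : ∀ p : Str × Str, p.1.length < N j → (p ∈ W ↔ p ∈ W')) (q : Str)
    (hq : q.length ≤ 2 * ((dN j).length ^ k + k + (dN j).length)) :
    q ∈ orcl W ↔ q ∈ orcl W' := by
  rw [CorA_len] at hq
  exact orcl_congr h q (lt_of_le_of_lt hq (CorA_num hb))

/-- `orcl_congr` (levels `< N (j+1)`), `AA_congr`, `Cor.congr`, `Cor.bound`, `Big`. -/
theorem CorA_congr {j k : ℕ} (hb : Big j k) {c c' : Cmd} {W W' : Set (Str × Str)}
    (h : ∀ p : Str × Str, p.1.length < N (j + 1) → (p ∈ W ↔ p ∈ W'))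
    (hc : CorA W c c' k (dN j)) : CorA W' c c' k (dN j) := by
  obtain ⟨l, hl, hcor⟩ := hc
  have hlt : N j < N (j + 1) := N_strictMono (Nat.lt_succ_self j)
  refine ⟨l, hl, hcor.congr (fun q hq => ?_) (AA_congr h (by rw [CorA_len]; exact hlt))
    fun y hy => ?_⟩
  · exact (CorA_orcl hb (fun p hp => h p (hp.trans hlt)) q hq).symm
  · have h1 := hcor.bound.2 y hy
    rw [CorA_len] at h1
    exact AA_congr h (h1.trans hb.1)

private theorem CorM_dec {j k : ℕ} (hb : Big j k) (cS : Cmd) {W W' : Set (Str × Str)}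
    (h : ∀ p : Str × Str, p.1.length < N j → (p ∈ W ↔ p ∈ W')) {y : Str}
    (hy : y.length ≤ N j ^ k + k + N j) :
    y ∈ Dec (orcl W) cS k ↔ y ∈ Dec (orcl W') cS k := by
  refine Dec_congr fun q hq => ?_
  have h1 : y.length ^ k ≤ (N j ^ k + k + N j) ^ k := Nat.pow_le_pow_left hy k
  have h2 := hb.2
  exact (orcl_congr h q (by omega)).symm

private theorem CorM_self {j k : ℕ} : (dN j).length ≤ N j ^ k + k + N j := by
  rw [CorA_len]
  omega

/-- In addition `Dec_congr` for the queries and for `dN j`. -/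
theorem CorM_congr {j k : ℕ} (hb : Big j k) {cS c₁ c₁' c₂ c₂' : Cmd} {W W' : Set (Str × Str)}
    (h : ∀ p : Str × Str, p.1.length < N (j + 1) → (p ∈ W ↔ p ∈ W'))
    (hc : CorM W cS c₁ c₁' c₂ c₂' k (dN j)) : CorM W' cS c₁ c₁' c₂ c₂' k (dN j) := by
  have hlt : N j < N (j + 1) := N_strictMono (Nat.lt_succ_self j)
  have h' : ∀ p : Str × Str, p.1.length < N j → (p ∈ W ↔ p ∈ W') :=
    fun p hp => h p (hp.trans hlt)
  have hO : ∀ q : Str, q.length ≤ 2 * ((dN j).length ^ k + k + (dN j).length) →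
      (q ∈ orcl W' ↔ q ∈ orcl W) := fun q hq => (CorA_orcl hb h' q hq).symm
  have hA : dN j ∈ AA W ↔ dN j ∈ AA W' := AA_congr h (by rw [CorA_len]; exact hlt)
  have hD : dN j ∈ Dec (orcl W) cS k ↔ dN j ∈ Dec (orcl W') cS k := CorM_dec hb cS h' CorM_self
  constructor
  · intro hx
    obtain ⟨l, hcor⟩ := hc.1 (hD.2 hx)
    refine ⟨l, hcor.congr hO hA fun y hy => ?_⟩
    have h1 := hcor.bound.2 y hy
    rw [CorA_len] at h1
    have h2 := AA_congr h (h1.trans hb.1)
    have h3 := CorM_dec hb cS h' h1.le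
    rw [Set.mem_sdiff, Set.mem_sdiff, h2, h3]
  · intro hx
    obtain ⟨l, hcor⟩ := hc.2 fun hx' => hx (hD.1 hx')
    refine ⟨l, hcor.congr hO hA fun y hy => ?_⟩
    have h1 := hcor.bound.2 y hy
    rw [CorA_len] at h1
    have h2 := AA_congr h (h1.trans hb.1)
    have h3 := CorM_dec hb cS h' h1.le
    rw [Set.mem_inter_iff, Set.mem_inter_iff, h2, h3]

/-- If there is a world `W0` that agrees with `Wb` below `N j` and in which the autoreduction is
correct at `dN j`, let `Q` be the set of its queries there, otherwise `Q = ∅`. In all such worlds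
the queries are the same (`Cor.eq_list`, `orcl_congr`: all strings asked are shorter than
`2^(N j)`), and in the two worlds the answers agree, so the outputs agree (`Cor.eq_bit`). -/
theorem CorA_two {j k : ℕ} (hb : Big j k) {c c' : Cmd} (hc : c.Det) (hc' : c'.Det)
    (Wb : Set (Str × Str)) : ∃ Q : Finset Str, Q.card ≤ N (j + 1) ∧ dN j ∉ Q ∧
      ∀ W0 W1 : Set (Str × Str),
        (∀ p : Str × Str, p.1.length < N j → (p ∈ W0 ↔ p ∈ Wb)) →
        (∀ p : Str × Str, p.1.length < N j → (p ∈ W1 ↔ p ∈ Wb)) →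
        dN j ∉ AA W0 → dN j ∈ AA W1 → (∀ y ∈ Q, (y ∈ AA W0 ↔ y ∈ AA W1)) →
        ¬ CorA W0 c c' k (dN j) ∨ ¬ CorA W1 c c' k (dN j) := by
  classical
  by_cases hex : ∃ W : Set (Str × Str), (∀ p : Str × Str, p.1.length < N j → (p ∈ W ↔ p ∈ Wb)) ∧
      CorA W c c' k (dN j)
  · obtain ⟨W, hW, l, hl, hcor⟩ := hex
    have hle : ∀ q : Str, q.length ≤ (dN j).length ^ k + k + (dN j).length →
        q.length ≤ 2 * ((dN j).length ^ k + k + (dN j).length) := fun q hq => by omega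
    refine ⟨l.toFinset, ?_, by rwa [List.mem_toFinset], fun W0 W1 h0 h1 hd0 hd1 hQ => ?_⟩
    · have h2 := hcor.bound.1
      rw [CorA_len] at h2
      have h3 := hb.1
      have h4 := l.toFinset_card_le
      omega
    · by_contra hcon
      rw [not_or, not_not, not_not] at hcon
      obtain ⟨⟨l0, _, hcor0⟩, l1, _, hcor1⟩ := hcon
      have e0 : l = l0 := hcor.eq_list hc hcor0 fun q hq =>
        CorA_orcl hb (fun p hp => (h0 p hp).trans (hW p hp).symm) q (hle q hq)
      have e1 : l = l1 := hcor.eq_list hc hcor1 fun q hq =>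
        CorA_orcl hb (fun p hp => (h1 p hp).trans (hW p hp).symm) q (hle q hq)
      subst e0
      subst e1
      have h2 := hcor0.eq_bit hc' hcor1 (fun q hq =>
        CorA_orcl hb (fun p hp => (h1 p hp).trans (h0 p hp).symm) q hq)
        fun y hy => hQ y (List.mem_toFinset.2 hy)
      exact hd0 (h2.2 hd1)
  · refine ⟨∅, by simp, by simp, fun W0 W1 h0 _ _ _ _ => Or.inl fun h => hex ⟨W0, h0, h⟩⟩

private theorem CorM_half {j k : ℕ} (hb : Big j k) {c c' : Cmd} (hc : c.Det) (hc' : c'.Det)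
    (Wb : Set (Str × Str)) (B : Set (Str × Str) → Set Str)
    (hB : ∀ W0 W1 : Set (Str × Str),
      (∀ p : Str × Str, p.1.length < N j → (p ∈ W0 ↔ p ∈ Wb)) →
      (∀ p : Str × Str, p.1.length < N j → (p ∈ W1 ↔ p ∈ Wb)) →
      ∀ y : Str, y.length < N j ^ k + k + N j → (y ≠ dN j → (y ∈ AA W0 ↔ y ∈ AA W1)) →
        (y ∈ B W0 ↔ y ∈ B W1)) :
    ∃ Q : Finset Str, Q.card ≤ N (j + 1) ∧ dN j ∉ Q ∧
      ∀ W0 W1 : Set (Str × Str),
        (∀ p : Str × Str, p.1.length < N j → (p ∈ W0 ↔ p ∈ Wb)) →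
        (∀ p : Str × Str, p.1.length < N j → (p ∈ W1 ↔ p ∈ Wb)) →
        dN j ∉ AA W0 → dN j ∈ AA W1 → (∀ y ∈ Q, (y ∈ AA W0 ↔ y ∈ AA W1)) →
        (∃ l : List Str, Cor (orcl W0) (AA W0) (B W0) c c' k (dN j) l) →
        (∃ l : List Str, Cor (orcl W1) (AA W1) (B W1) c c' k (dN j) l) → False := by
  classical
  by_cases hex : ∃ W : Set (Str × Str), (∀ p : Str × Str, p.1.length < N j → (p ∈ W ↔ p ∈ Wb)) ∧
      ∃ l : List Str, Cor (orcl W) (AA W) (B W) c c' k (dN j) l
  · obtain ⟨W, hW, l, hcor⟩ := hex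
    have hle : ∀ q : Str, q.length ≤ (dN j).length ^ k + k + (dN j).length →
        q.length ≤ 2 * ((dN j).length ^ k + k + (dN j).length) := fun q hq => by omega
    refine ⟨l.toFinset.erase (dN j), ?_, by simp, fun W0 W1 h0 h1 hd0 hd1 hQ => ?_⟩
    · have h2 := hcor.bound.1
      rw [CorA_len] at h2
      have h3 := hb.1
      have h4 := l.toFinset_card_le
      have h5 := Finset.card_erase_le (s := l.toFinset) (a := dN j)
      omega
    · rintro ⟨l0, hcor0⟩ ⟨l1, hcor1⟩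
      have e0 : l = l0 := hcor.eq_list hc hcor0 fun q hq =>
        CorA_orcl hb (fun p hp => (h0 p hp).trans (hW p hp).symm) q (hle q hq)
      have e1 : l = l1 := hcor.eq_list hc hcor1 fun q hq =>
        CorA_orcl hb (fun p hp => (h1 p hp).trans (hW p hp).symm) q (hle q hq)
      subst e0
      subst e1
      have h2 := hcor0.eq_bit hc' hcor1 (fun q hq =>
        CorA_orcl hb (fun p hp => (h1 p hp).trans (h0 p hp).symm) q hq)
        fun y hy => by
          have h3 := hcor.bound.2 y hy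
          rw [CorA_len] at h3
          exact hB W0 W1 h0 h1 y h3 fun hne =>
            hQ y (Finset.mem_erase.2 ⟨hne, List.mem_toFinset.2 hy⟩)
      exact hd0 (h2.2 hd1)
  · exact ⟨∅, by simp, by simp, fun W0 W1 h0 _ _ _ _ h _ => hex ⟨W0, h0, h⟩⟩

/-- Whether `dN j` is in `S` is the same in all worlds (`Dec_congr`), so one of the two reductions
is relevant. Let `Q` be its set of queries without `dN j`; for the query `dN j` itself the answer
is `0` in both worlds, since it lies in the other part. -/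
theorem CorM_two {j k : ℕ} (hb : Big j k) {cS c₁ c₁' c₂ c₂' : Cmd} (h₁ : c₁.Det)
    (h₁' : c₁'.Det) (h₂ : c₂.Det) (h₂' : c₂'.Det) (Wb : Set (Str × Str)) :
    ∃ Q : Finset Str, Q.card ≤ N (j + 1) ∧ dN j ∉ Q ∧
      ∀ W0 W1 : Set (Str × Str),
        (∀ p : Str × Str, p.1.length < N j → (p ∈ W0 ↔ p ∈ Wb)) →
        (∀ p : Str × Str, p.1.length < N j → (p ∈ W1 ↔ p ∈ Wb)) →
        dN j ∉ AA W0 → dN j ∈ AA W1 → (∀ y ∈ Q, (y ∈ AA W0 ↔ y ∈ AA W1)) →
        ¬ CorM W0 cS c₁ c₁' c₂ c₂' k (dN j) ∨ ¬ CorM W1 cS c₁ c₁' c₂ c₂' k (dN j) := by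
  by_cases hx : dN j ∈ Dec (orcl Wb) cS k
  · obtain ⟨Q, hQ1, hQ2, hQ⟩ := CorM_half hb h₁ h₁' Wb (fun W => AA W \ Dec (orcl W) cS k)
      (fun W0 W1 h0 h1 y hy hA => by
        have d0 := CorM_dec hb cS h0 hy.le
        have d1 := CorM_dec hb cS h1 hy.le
        rw [Set.mem_sdiff, Set.mem_sdiff, d0, d1]
        by_cases hyd : y = dN j
        · subst hyd
          simp [hx]
        · rw [hA hyd])
    refine ⟨Q, hQ1, hQ2, fun W0 W1 h0 h1 hd0 hd1 hq => ?_⟩
    by_contra hcon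
    rw [not_or, not_not, not_not] at hcon
    exact hQ W0 W1 h0 h1 hd0 hd1 hq (hcon.1.1 ((CorM_dec hb cS h0 CorM_self).2 hx))
      (hcon.2.1 ((CorM_dec hb cS h1 CorM_self).2 hx))
  · obtain ⟨Q, hQ1, hQ2, hQ⟩ := CorM_half hb h₂ h₂' Wb (fun W => AA W ∩ Dec (orcl W) cS k)
      (fun W0 W1 h0 h1 y hy hA => by
        have d0 := CorM_dec hb cS h0 hy.le
        have d1 := CorM_dec hb cS h1 hy.le
        rw [Set.mem_inter_iff, Set.mem_inter_iff, d0, d1]
        by_cases hyd : y = dN j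
        · subst hyd
          simp [hx]
        · rw [hA hyd])
    refine ⟨Q, hQ1, hQ2, fun W0 W1 h0 h1 hd0 hd1 hq => ?_⟩
    by_contra hcon
    rw [not_or, not_not, not_not] at hcon
    exact hQ W0 W1 h0 h1 hd0 hd1 hq
      (hcon.1.2 fun h => hx ((CorM_dec hb cS h0 CorM_self).1 h))
      (hcon.2.2 fun h => hx ((CorM_dec hb cS h1 CorM_self).1 h))

end Pool.Agent.Helper5.AN
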