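import Pool.Agent.Helper5.SX.General
import Pool.Agent.Helper5.AN.Core
import Pool.Agent.Helper5.AN.Req
import Pool.Agent.Helper5.AN.Prog

/-!
# Assembly
-/

namespace Pool.Agent.Helper5.AN

open Pool.Agent.Helper5.SX Function

open Classical

/-- The requirements: two programs and an exponent, or five programs and an exponent. -/
abbrev Tup : Type := (Cmd × Cmd × ℕ) ⊕ (Cmd × Cmd × Cmd × Cmd × Cmd × ℕ)

theorem countable_cmd : Countable Cmd := by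
  obtain ⟨f, -, hf⟩ := exists_enum
  have h1 : Countable (Cmd × ℕ) := by
    refine (Function.Surjective.countable (f := f) ?_)
    rintro ⟨c, k⟩
    obtain ⟨i, -, hi⟩ := hf c k 0
    exact ⟨i, hi⟩
  exact Function.Injective.countable (f := fun c : Cmd => (c, 0))
    (fun a b h => congrArg Prod.fst h)

theorem exists_tup : ∃ g : ℕ → Tup, ∀ (t : Tup) (J : ℕ), ∃ j ≥ J, g j = t := by
  have := countable_cmd
  have : Nonempty Tup := ⟨Sum.inl (Cmd.skip, Cmd.skip, 0)⟩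
  obtain ⟨g, hg⟩ := exists_surjective_nat Tup
  refine ⟨fun j => g j.unpair.1, fun t J => ?_⟩
  obtain ⟨a, ha⟩ := hg t
  exact ⟨Nat.pair a J, Nat.right_le_pair _ _, by simp [ha]⟩

/-- The requirement of a tuple. -/
def ReqT (j : ℕ) (W : Set (Str × Str)) : Tup → Prop
  | Sum.inl (c, c', k) => c.Det → c'.Det → Big j k → ¬ CorA W c c' k (dN j)
  | Sum.inr (cS, c₁, c₁', c₂, c₂', k) => c₁.Det → c₁'.Det → c₂.Det → c₂'.Det → Big j k →
      ¬ CorM W cS c₁ c₁' c₂ c₂' k (dN j)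

theorem reqT_congr {j : ℕ} {W W' : Set (Str × Str)}
    (h : ∀ p : Str × Str, p.1.length < N (j + 1) → (p ∈ W ↔ p ∈ W')) (t : Tup)
    (hr : ReqT j W t) : ReqT j W' t := by
  rcases t with ⟨c, c', k⟩ | ⟨cS, c₁, c₁', c₂, c₂', k⟩
  · intro h1 h2 hb hc
    exact hr h1 h2 hb (CorA_congr hb (fun p hp => (h p hp).symm) hc)
  · intro h1 h2 h3 h4 hb hc
    exact hr h1 h2 h3 h4 hb (CorM_congr hb (fun p hp => (h p hp).symm) hc)

theorem reqT_two (j : ℕ) (t : Tup) (Wb : Set (Str × Str)) :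
    ∃ Q : Finset Str, Q.card ≤ N (j + 1) ∧ dN j ∉ Q ∧
      ∀ W0 W1 : Set (Str × Str),
        (∀ p : Str × Str, p.1.length < N j → (p ∈ W0 ↔ p ∈ Wb)) →
        (∀ p : Str × Str, p.1.length < N j → (p ∈ W1 ↔ p ∈ Wb)) →
        dN j ∉ AA W0 → dN j ∈ AA W1 → (∀ y ∈ Q, (y ∈ AA W0 ↔ y ∈ AA W1)) →
        ReqT j W0 t ∨ ReqT j W1 t := by
  rcases t with ⟨c, c', k⟩ | ⟨cS, c₁, c₁', c₂, c₂', k⟩
  · by_cases h : c.Det ∧ c'.Det ∧ Big j k
    · obtain ⟨h1, h2, hb⟩ := h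
      obtain ⟨Q, hQ, hd, hQ2⟩ := CorA_two hb h1 h2 Wb
      refine ⟨Q, hQ, hd, fun W0 W1 a0 a1 d0 d1 hq => ?_⟩
      rcases hQ2 W0 W1 a0 a1 d0 d1 hq with h3 | h3
      · exact Or.inl fun _ _ _ => h3
      · exact Or.inr fun _ _ _ => h3
    · exact ⟨∅, by simp, by simp, fun W0 W1 _ _ _ _ _ =>
        Or.inl fun h1 h2 hb => absurd ⟨h1, h2, hb⟩ h⟩
  · by_cases h : c₁.Det ∧ c₁'.Det ∧ c₂.Det ∧ c₂'.Det ∧ Big j k
    · obtain ⟨h1, h2, h3, h4, hb⟩ := h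
      obtain ⟨Q, hQ, hd, hQ2⟩ := CorM_two (cS := cS) hb h1 h2 h3 h4 Wb
      refine ⟨Q, hQ, hd, fun W0 W1 a0 a1 d0 d1 hq => ?_⟩
      rcases hQ2 W0 W1 a0 a1 d0 d1 hq with h5 | h5
      · exact Or.inl fun _ _ _ _ _ => h5
      · exact Or.inr fun _ _ _ _ _ => h5
    · exact ⟨∅, by simp, by simp, fun W0 W1 _ _ _ _ _ =>
        Or.inl fun h1 h2 h3 h4 hb => absurd ⟨h1, h2, h3, h4, hb⟩ h⟩

theorem time_mono {k K n t : ℕ} (h : k ≤ K) (ht : t ≤ n ^ k + k) : t ≤ n ^ K + K :=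
  ht.trans (pow_add_mono h n)

/-- The completeness for one table. -/
theorem complete_of_ok {f : ℕ → Cmd × ℕ}
    (hf' : ∀ (c : Cmd) (k N : ℕ), ∃ i, N ≤ i ∧ f i = (c, k)) {W : Set (Str × Str)}
    (hok : ∀ i x, Ok f W i x) {α : Bool → Bool → Bool → Bool}
    (h0 : ∀ a, α a false false = false) (h1 : ∀ a, α a false true = a)
    (h2 : ∀ a, α a true true = true) {C : Set Str} (hC : C ∈ NEXP (orcl W)) :
    ∃ u v w : Str → Str, TT (orcl W) (fun x => [u x, v x, w x]) C (AA W) ∧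
      ∀ x, x ∈ C ↔ α (decide (u x ∈ AA W)) (decide (v x ∈ AA W)) (decide (w x ∈ AA W)) = true := by
  obtain ⟨k, c, hc⟩ := hC
  obtain ⟨i, -, hi⟩ := hf' c k 0
  have key : ∀ x, x ∈ C ↔ α (decide (List.replicate (dl (yl i x)) true ∈ AA W))
      (decide (ystr i false x ∈ AA W)) (decide (ystr i true x ∈ AA W)) = true := by
    intro x
    have hk : kap f i x W ↔ x ∈ C := by
      unfold kap famA
      rw [hi]
      exact (hc x).symm
    obtain ⟨h3, h4⟩ := hok i x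
    rw [← hk, h4]
    by_cases hb0 : ystr i false x ∈ AA W
    · have hb1 := h3 hb0
      simp [hb0, hb1, h2]
    · by_cases hb1 : ystr i true x ∈ AA W
      · simp [hb0, hb1, h1]
      · simp [hb0, hb1, h0]
  refine ⟨fun x => List.replicate (dl (yl i x)) true, fun x => ystr i false x,
    fun x => ystr i true x, ⟨?_, ?_⟩, key⟩
  · obtain ⟨K, hK⟩ := redp_run i
    exact ⟨redp i, redp_det i, K, fun x => hK W x⟩
  · refine ⟨evalp α, evalp_det α, 6, fun x => ?_⟩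
    obtain ⟨t, ht, s', hr, hs⟩ := evalp_run α (orcl W) x
      (decide (List.replicate (dl (yl i x)) true ∈ AA W))
      (decide (ystr i false x ∈ AA W)) (decide (ystr i true x ∈ AA W))
    refine ⟨t, ht.trans (Nat.le_add_left _ _), s', ?_, hs.trans (key x).symm⟩
    exact hr

theorem dec_eq {O S : Set Str} {cS : Cmd} (hS : cS.Det) {k K : ℕ} (hk : k ≤ K)
    (h : ∀ x : Str, ∃ t ≤ x.length ^ k + k, ∃ s' : Store,
      Run O cS (start x []) t s' ∧ (s' 2 ≠ [] ↔ x ∈ S)) : Dec O cS K = S := by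
  ext y
  obtain ⟨t, ht, s', hr, hs⟩ := h y
  constructor
  · rintro ⟨t', -, s'', hr', hs'⟩
    obtain ⟨rfl, -⟩ := run_det hS hr hr'
    exact hs.1 hs'
  · intro hy
    exact ⟨t, time_mono hk ht, s', hr, hs.2 hy⟩

/-- The main theorem. -/
theorem main : ∃ O A : Set Str, A ∈ NE O ∧
    (∀ α : Bool → Bool → Bool → Bool, (∀ a, α a false false = false) →
      (∀ a, α a false true = a) → (∀ a, α a true true = true) →
      ∀ C ∈ NEXP O, ∃ u v w : Str → Str, TT O (fun x => [u x, v x, w x]) C A ∧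
        ∀ x, x ∈ C ↔ α (decide (u x ∈ A)) (decide (v x ∈ A)) (decide (w x ∈ A)) = true) ∧
    (¬ ∃ q : Str → List Str, (∀ x, x ∉ q x) ∧ TT O q A A) ∧
    ¬ ∃ S ∈ PP O, (∃ q, TT O q (A ∩ S) (A \ S)) ∧ ∃ q, TT O q (A \ S) (A ∩ S) := by
  obtain ⟨f, hf, hf'⟩ := exists_enum
  obtain ⟨g, hg⟩ := exists_tup
  obtain ⟨W, hok, hreq⟩ := core hf (fun j W => ReqT j W (g j))
    (fun j W W' h => reqT_congr h (g j)) (fun j Wb => reqT_two j (g j) Wb)
  refine ⟨orcl W, AA W, AA_mem_NE W, ?_, ?_, ?_⟩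
  · intro α h0 h1 h2 C hC
    exact complete_of_ok hf' hok h0 h1 h2 hC
  · rintro ⟨q, hq, ⟨c, hc, k, h⟩, c', hc', k', h'⟩
    obtain ⟨J, hJ⟩ := exists_big (max k k')
    obtain ⟨j, hj, hgj⟩ := hg (Sum.inl (c, c', max k k')) J
    have h1 := hreq j
    simp only [hgj] at h1
    refine h1 hc hc' (hJ j hj) ⟨q (dN j), hq _, ?_, ?_⟩
    · obtain ⟨t, ht, s', hr, hs⟩ := h (dN j)
      exact ⟨t, time_mono (le_max_left _ _) ht, s', hr, hs⟩
    · obtain ⟨t, ht, s', hr, hs⟩ := h' (dN j)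
      exact ⟨t, time_mono (le_max_right _ _) ht, s', hr, hs⟩
  · rintro ⟨S, ⟨cS, hcS, kS, hS⟩, ⟨q₁, ⟨c₁, hc₁, k₁, h₁⟩, c₁', hc₁', k₁', h₁'⟩,
      q₂, ⟨c₂, hc₂, k₂, h₂⟩, c₂', hc₂', k₂', h₂'⟩
    set K := max kS (max (max k₁ k₁') (max k₂ k₂')) with hK
    have e0 : kS ≤ K := le_max_left _ _
    have e1 : k₁ ≤ K := (le_max_left _ _).trans ((le_max_left _ _).trans (le_max_right _ _))
    have e1' : k₁' ≤ K := (le_max_right _ _).trans ((le_max_left _ _).trans (le_max_right _ _))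
    have e2 : k₂ ≤ K := (le_max_left _ _).trans ((le_max_right _ _).trans (le_max_right _ _))
    have e2' : k₂' ≤ K := (le_max_right _ _).trans ((le_max_right _ _).trans (le_max_right _ _))
    have hD : Dec (orcl W) cS K = S := dec_eq hcS e0 hS
    obtain ⟨J, hJ⟩ := exists_big K
    obtain ⟨j, hj, hgj⟩ := hg (Sum.inr (cS, c₁, c₁', c₂, c₂', K)) J
    have h3 := hreq j
    simp only [hgj] at h3
    refine h3 hc₁ hc₁' hc₂ hc₂' (hJ j hj) ?_
    unfold CorM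
    rw [hD]
    constructor
    · intro hx
      refine ⟨q₁ (dN j), ?_, ?_⟩
      · obtain ⟨t, ht, s', hr, hs⟩ := h₁ (dN j)
        exact ⟨t, time_mono e1 ht, s', hr, hs⟩
      · obtain ⟨t, ht, s', hr, hs⟩ := h₁' (dN j)
        exact ⟨t, time_mono e1' ht, s', hr, hs.trans ⟨fun h => h.1, fun h => ⟨h, hx⟩⟩⟩
    · intro hx
      refine ⟨q₂ (dN j), ?_, ?_⟩
      · obtain ⟨t, ht, s', hr, hs⟩ := h₂ (dN j)
        exact ⟨t, time_mono e2 ht, s', hr, hs⟩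
      · obtain ⟨t, ht, s', hr, hs⟩ := h₂' (dN j)
        exact ⟨t, time_mono e2' ht, s', hr, hs.trans ⟨fun h => h.1, fun h => ⟨h, hx⟩⟩⟩

end Pool.Agent.Helper5.AN
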