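import Pool.Agent.Helper5.AN.Defs

/-!
# Recursion on the length
-/

namespace Pool.Agent.Helper5.AN

/-- `WellFounded.fix (measure μ).wf` (see `orcP`, `orcP_eq` in SX/Oracle.lean for the pattern). -/
theorem exists_rec {α : Type} (μ : α → ℕ) (Φ : α → Set α → Prop) :
    ∃ P : Set α, ∀ a, a ∈ P ↔ Φ a {b | b ∈ P ∧ μ b < μ a} := by
  have wf : WellFounded (fun a b : α => μ a < μ b) := InvImage.wf μ Nat.lt_wfRel.wf
  let G : α → Prop := wf.fix (fun a ih => Φ a {b | ∃ h : μ b < μ a, ih b h})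
  refine ⟨{a | G a}, fun a => ?_⟩
  have h1 : G a = Φ a {b | ∃ _ : μ b < μ a, G b} := wf.fix_eq _ a
  have h2 : {b | ∃ _ : μ b < μ a, G b} = {b | b ∈ {a | G a} ∧ μ b < μ a} := by
    ext b
    simp only [Set.mem_ofPred_eq, exists_prop]
    exact And.comm
  rw [← h2, ← h1]
  rfl

/-- Strong induction on `μ a`: the two sets agree below `μ a`. -/
theorem rec_unique {α : Type} {μ : α → ℕ} {Φ : α → Set α → Prop} {P P' : Set α}
    (h : ∀ a, a ∈ P ↔ Φ a {b | b ∈ P ∧ μ b < μ a})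
    (h' : ∀ a, a ∈ P' ↔ Φ a {b | b ∈ P' ∧ μ b < μ a}) : P = P' := by
  have key : ∀ n : ℕ, ∀ a, μ a = n → (a ∈ P ↔ a ∈ P') := by
    intro n
    induction n using Nat.strong_induction_on with
    | _ n ih =>
      intro a ha
      rw [h a, h' a]
      have : {b | b ∈ P ∧ μ b < μ a} = {b | b ∈ P' ∧ μ b < μ a} := by
        ext b
        constructor
        · rintro ⟨hb, hlt⟩
          exact ⟨(ih (μ b) (ha ▸ hlt) b rfl).1 hb, hlt⟩
        · rintro ⟨hb, hlt⟩
          exact ⟨(ih (μ b) (ha ▸ hlt) b rfl).2 hb, hlt⟩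
      rw [this]
  ext a
  exact key (μ a) a rfl

end Pool.Agent.Helper5.AN
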