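import Pool.Agent.Helper5.AN.Defs

/-!
# Strings
-/

namespace Pool.Agent.Helper5.AN

open Pool.Agent.Helper5.SX Function

private lemma str1_penc_eq (x w : Str) :
    penc x w = x.reverse.flatMap (fun b => [true, b]) ++ w := by
  induction x generalizing w with
  | nil => simp [penc]
  | cons b x ih =>
    rw [penc, ih, List.reverse_cons, List.flatMap_append, List.append_assoc]
    simp

private lemma str1_flat_inj (z z' y y' : Str)
    (h : z.flatMap (fun b => [true, b]) ++ false :: y
      = z'.flatMap (fun b => [true, b]) ++ false :: y') : z = z' ∧ y = y' := by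
  induction z generalizing z' with
  | nil =>
    cases z' with
    | nil => simpa using h
    | cons c z' => simp at h
  | cons b z ih =>
    cases z' with
    | nil => simp at h
    | cons c z' =>
      simp only [List.flatMap_cons, List.cons_append, List.nil_append, List.cons.injEq,
        true_and] at h
      obtain ⟨h1, h2⟩ := ih z' h.2
      exact ⟨by rw [h.1, h1], h2⟩

private lemma str1_penc_inj {x x' y y' : Str} (h : penc x (false :: y) = penc x' (false :: y')) :
    x = x' ∧ y = y' := by
  rw [str1_penc_eq, str1_penc_eq] at h
  obtain ⟨h1, h2⟩ := str1_flat_inj _ _ _ _ h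
  exact ⟨List.reverse_injective h1, h2⟩

private lemma str1_rep_inj (a b : ℕ) (u v : Str)
    (h : List.replicate a true ++ false :: u = List.replicate b true ++ false :: v) :
    a = b ∧ u = v := by
  induction a generalizing b with
  | zero =>
    cases b with
    | zero => simpa using h
    | succ b => simp [List.replicate_succ] at h
  | succ a ih =>
    cases b with
    | zero => simp [List.replicate_succ] at h
    | succ b =>
      simp only [List.replicate_succ, List.cons_append, List.cons.injEq, true_and] at h
      obtain ⟨h1, h2⟩ := ih b h
      exact ⟨by rw [h1], h2⟩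

private lemma str1_penc_length (x w : Str) : (penc x w).length = 2 * x.length + w.length := by
  induction x generalizing w with
  | nil => simp [penc]
  | cons b x ih =>
    rw [penc, ih]
    simp only [List.length_cons]
    ring

/-- See SX/Codes.lean for the pattern (the auxiliary lemmas there are private: copy them). -/
theorem ystr_inj {i i' : ℕ} {b b' : Bool} {x x' : Str} (h : ystr i b x = ystr i' b' x') :
    i = i' ∧ b = b' ∧ x = x' := by
  unfold ystr at h
  obtain ⟨-, h1⟩ := List.cons.inj h
  obtain ⟨h2, h3⟩ := List.cons.inj h1
  obtain ⟨h4, h5⟩ := str1_rep_inj _ _ _ _ h3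
  exact ⟨Nat.succ_injective h4, h2, (str1_penc_inj h5).1⟩

theorem ystr_length (i : ℕ) (b : Bool) (x : Str) : (ystr i b x).length = yl i x := by
  unfold ystr yl
  rw [List.length_cons, List.length_cons, List.length_append, List.length_replicate,
    List.length_cons, str1_penc_length, List.length_cons, List.length_replicate]
  ring

theorem ystr_ne_rep (i : ℕ) (b : Bool) (x : Str) (m : ℕ) :
    ystr i b x ≠ List.replicate m true := by
  intro h
  unfold ystr at h
  cases m with
  | zero => simp at h
  | succ m => simp [List.replicate_succ] at h

private lemma lenc_flat_inj (z z' y y' : Str)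
    (h : z.flatMap (fun b => [true, b]) ++ false :: y
      = z'.flatMap (fun b => [true, b]) ++ false :: y') : z = z' ∧ y = y' := by
  induction z generalizing z' with
  | nil =>
    cases z' with
    | nil => simpa using h
    | cons c z' => simp at h
  | cons b z ih =>
    cases z' with
    | nil => simp at h
    | cons c z' =>
      simp only [List.flatMap_cons, List.cons_append, List.nil_append, List.cons.injEq,
        true_and] at h
      obtain ⟨h1, h2⟩ := ih z' h.2
      exact ⟨by rw [h.1, h1], h2⟩

private lemma lenc_flat_length (w : Str) :
    (w.flatMap (fun b => [true, b])).length = 2 * w.length := by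
  induction w with
  | nil => rfl
  | cons b w ih =>
    rw [List.flatMap_cons, List.length_append, ih, List.length_cons]
    simp only [List.length_cons, List.length_nil]
    ring

private lemma lenc_length_cons (w : Str) (l : List Str) :
    (lenc (w :: l)).length = 2 * w.length + ((lenc l).length + 1) := by
  rw [lenc, List.length_append, lenc_flat_length, List.length_cons]

theorem lenc_inj {l l' : List Str} (h : lenc l = lenc l') : l = l' := by
  induction l generalizing l' with
  | nil =>
    cases l' with
    | nil => rfl
    | cons w l' =>
      exfalso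
      have h1 := congrArg List.length h
      rw [lenc_length_cons, lenc, List.length_nil] at h1
      omega
  | cons w l ih =>
    cases l' with
    | nil =>
      exfalso
      have h1 := congrArg List.length h
      rw [lenc_length_cons, lenc, List.length_nil] at h1
      omega
    | cons w' l' =>
      rw [lenc, lenc] at h
      obtain ⟨h1, h2⟩ := lenc_flat_inj _ _ _ _ h
      rw [h1, ih h2]

theorem length_le_lenc (l : List Str) : l.length ≤ (lenc l).length := by
  induction l with
  | nil => exact Nat.zero_le _
  | cons w l ih =>
    rw [lenc_length_cons, List.length_cons]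
    omega

theorem mem_length_lt_lenc {l : List Str} {y : Str} (h : y ∈ l) :
    y.length < (lenc l).length := by
  induction l with
  | nil => exact absurd h List.not_mem_nil
  | cons w l ih =>
    rw [lenc_length_cons]
    rcases List.mem_cons.1 h with rfl | h
    · omega
    · have h1 := ih h
      omega

private lemma strs_N_pos (j : ℕ) : 0 < N j := by
  induction j with
  | zero => exact Nat.succ_pos 8
  | succ j ih => exact Nat.pow_pos ih

private lemma strs_tstr_ne_rep (y w : Str) (m : ℕ) : tstr y w ≠ List.replicate m true := by
  intro h
  cases m with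
  | zero => simp [tstr] at h
  | succ m =>
    rw [tstr, List.replicate_succ] at h
    simp at h

/-- `tstr y w` starts with `false`, the marks with `true` (`0 < N j`). -/
theorem tstr_mem_orcl {W : Set (Str × Str)} {y w : Str} :
    tstr y w ∈ orcl W ↔ (y, w) ∈ W ∧ w.length = 2 ^ y.length := by
  constructor
  · rintro (⟨y', w', h1, h2, h3⟩ | ⟨j, hj⟩)
    · obtain ⟨rfl, rfl⟩ := tstr_inj h1
      exact ⟨h2, h3⟩
    · exact absurd hj (strs_tstr_ne_rep y w _)
  · rintro ⟨h2, h3⟩
    exact Or.inl ⟨y, w, rfl, h2, h3⟩

theorem rep_mem_orcl {W : Set (Str × Str)} {m : ℕ} :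
    List.replicate m true ∈ orcl W ↔ ∃ j, m = N j := by
  constructor
  · rintro (⟨y', w', h1, -, -⟩ | ⟨j, hj⟩)
    · exact absurd h1.symm (strs_tstr_ne_rep y' w' m)
    · refine ⟨j, ?_⟩
      have h1 := congrArg List.length hj
      rw [List.length_replicate, List.length_replicate] at h1
      exact h1
  · rintro ⟨j, rfl⟩
    exact Or.inr ⟨j, rfl⟩

theorem AA_eq_testSet (W : Set (Str × Str)) : AA W = testSet (orcl W) := by
  ext y
  constructor
  · rintro ⟨w, h⟩
    exact ⟨w, tstr_mem_orcl.2 h⟩
  · rintro ⟨w, h⟩
    exact ⟨w, tstr_mem_orcl.1 h⟩

theorem AA_mem_NE (W : Set (Str × Str)) : AA W ∈ NE (orcl W) := by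
  rw [AA_eq_testSet]
  exact testSet_mem_NE _ (fun x y h => (tstr_mem_orcl.1 h).2.le)

end Pool.Agent.Helper5.AN
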