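import Pool.Agent.Helper5.AN.Fresh

/-!
# Two worlds
-/

namespace Pool.Agent.Helper5.AN

open Pool.Agent.Helper5.SX Function

/-- The two worlds and their equations. Let `P` be given by `exists_rec` for `PhiP` with
`μ p = p.2.1.length`, `W0 = {q | (false, q) ∈ P}`, `W1 = {q | (true, q) ∈ P}`; the restricted
sets are `{q | q ∈ W0 ∧ ..}` up to rewriting; replace `kap f i x` of the restricted sets by
`kap f i x W0`, `kap f i x W1` (`kap_congr`, `ystr_length`). -/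
theorem exists_pair {f : ℕ → Cmd × ℕ} (hf : ∀ i, (f i).2 ≤ i) (n : ℕ) (Wb : Set (Str × Str))
    (Q' : Set (ℕ × Str)) (w1 : Str → Str) : ∃ W0 W1 : Set (Str × Str),
      (∀ y w, (y, w) ∈ W0 ↔ (y.length < n ∧ (y, w) ∈ Wb) ∨
        (n ≤ y.length ∧ w = w0 y ∧ ∃ i b x, y = ystr i b x ∧
          (kap f i x W0 ∨ (b = true ∧ (i, x) ∈ Q' ∧ kap f i x W1)))) ∧
      (∀ y w, (y, w) ∈ W1 ↔ (y, w) ∈ W0 ∨ (y = List.replicate n true ∧ w = w1 y) ∨
        (n ≤ y.length ∧ w = w1 y ∧ ∃ i b x, y = ystr i b x ∧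
          (i, x) ∉ Q' ∧ ¬ kap f i x W0 ∧ kap f i x W1)) := by
  obtain ⟨P, hP⟩ := exists_rec (fun p : Bool × Str × Str => p.2.1.length) (PhiP f n Wb Q' w1)
  have hloc : ∀ (c : Bool) (i : ℕ) (b : Bool) (x : Str) (y : Str), y = ystr i b x →
      (kap f i x {q | (c, q) ∈ {p : Bool × Str × Str | p ∈ P ∧ p.2.1.length < y.length}} ↔
        kap f i x {q | (c, q) ∈ P}) := by
    intro c i b x y hy
    refine kap_congr hf fun p hp => ?_
    have hp' : p.1.length < y.length := by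
      rw [hy, ystr_length]
      exact hp
    exact ⟨fun h => h.1, fun h => ⟨h, hp'⟩⟩
  have h0 : ∀ y w, (y, w) ∈ {q | (false, q) ∈ P} ↔ (y.length < n ∧ (y, w) ∈ Wb) ∨
        (n ≤ y.length ∧ w = w0 y ∧ ∃ i b x, y = ystr i b x ∧
          (kap f i x {q | (false, q) ∈ P} ∨
            (b = true ∧ (i, x) ∈ Q' ∧ kap f i x {q | (true, q) ∈ P}))) := by
    intro y w
    refine (hP (false, y, w)).trans ?_
    constructor
    · rintro (h | ⟨h1, h2, i, b, x, hy, h⟩ | ⟨h, -⟩ | ⟨h, -⟩)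
      · exact Or.inl h
      · refine Or.inr ⟨h1, h2, i, b, x, hy, ?_⟩
        rcases h with h | ⟨h3, h4, h5⟩
        · exact Or.inl ((hloc false i b x y hy).1 h)
        · exact Or.inr ⟨h3, h4, (hloc true i b x y hy).1 h5⟩
      · exact absurd h Bool.false_ne_true
      · exact absurd h Bool.false_ne_true
    · rintro (h | ⟨h1, h2, i, b, x, hy, h⟩)
      · exact Or.inl h
      · refine Or.inr (Or.inl ⟨h1, h2, i, b, x, hy, ?_⟩)
        rcases h with h | ⟨h3, h4, h5⟩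
        · exact Or.inl ((hloc false i b x y hy).2 h)
        · exact Or.inr ⟨h3, h4, (hloc true i b x y hy).2 h5⟩
  refine ⟨{q | (false, q) ∈ P}, {q | (true, q) ∈ P}, h0, fun y w => ?_⟩
  rw [h0 y w]
  refine (hP (true, y, w)).trans ?_
  constructor
  · rintro (h | ⟨h1, h2, i, b, x, hy, h⟩ | ⟨-, h1, h2⟩ | ⟨-, h1, h2, i, b, x, hy, h3, h4, h5⟩)
    · exact Or.inl (Or.inl h)
    · refine Or.inl (Or.inr ⟨h1, h2, i, b, x, hy, ?_⟩)
      rcases h with h | ⟨h3, h4, h5⟩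
      · exact Or.inl ((hloc false i b x y hy).1 h)
      · exact Or.inr ⟨h3, h4, (hloc true i b x y hy).1 h5⟩
    · exact Or.inr (Or.inl ⟨h1, h2⟩)
    · exact Or.inr (Or.inr ⟨h1, h2, i, b, x, hy, h3,
        fun h => h4 ((hloc false i b x y hy).2 h), (hloc true i b x y hy).1 h5⟩)
  · rintro ((h | ⟨h1, h2, i, b, x, hy, h⟩) | ⟨h1, h2⟩ | ⟨h1, h2, i, b, x, hy, h3, h4, h5⟩)
    · exact Or.inl h
    · refine Or.inr (Or.inl ⟨h1, h2, i, b, x, hy, ?_⟩)
      rcases h with h | ⟨h3, h4, h5⟩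
      · exact Or.inl ((hloc false i b x y hy).2 h)
      · exact Or.inr ⟨h3, h4, (hloc true i b x y hy).2 h5⟩
    · exact Or.inr (Or.inr (Or.inl ⟨rfl, h1, h2⟩))
    · exact Or.inr (Or.inr (Or.inr ⟨rfl, h1, h2, i, b, x, hy, h3,
        fun h => h4 ((hloc false i b x y hy).1 h), (hloc true i b x y hy).2 h5⟩))

/-- `W0` is world 0 for the pattern `e = {(i,x) ∈ Q' | kap f i x W1}` (`kap_congr`), so
`exists_fresh` applies to `O' = orcl W1`: the new strings of `orcl W1` are `tstr y (w1 y)`. -/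
theorem kap_mono {f : ℕ → Cmd × ℕ} (hf : ∀ i, (f i).2 ≤ i) (j : ℕ) (Wb : Set (Str × Str))
    (Q' : Finset (ℕ × Str)) (w1 : Str → Str)
    (hw : ∀ e : Set (ℕ × Str), e ⊆ ↑Q' → ∀ W0 : Set (Str × Str),
        (∀ p, p ∈ W0 ↔ Phi0 f (N j) Wb e p {q | q ∈ W0 ∧ q.1.length < p.1.length}) →
        ∀ i x, yl i x < N (j + 1) → kap f i x W0 → ∀ O' : Set Str,
          (∀ q ∈ orcl W0, q ∈ O') →
          (∀ q ∈ O', q ∉ orcl W0 → ∃ y, N j ≤ y.length ∧ q = tstr y (w1 y)) →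
          famA f i x O')
    {W0 W1 : Set (Str × Str)}
    (h0 : ∀ y w, (y, w) ∈ W0 ↔ (y.length < N j ∧ (y, w) ∈ Wb) ∨
        (N j ≤ y.length ∧ w = w0 y ∧ ∃ i b x, y = ystr i b x ∧
          (kap f i x W0 ∨ (b = true ∧ (i, x) ∈ (Q' : Set (ℕ × Str)) ∧ kap f i x W1))))
    (h1 : ∀ y w, (y, w) ∈ W1 ↔ (y, w) ∈ W0 ∨ (y = List.replicate (N j) true ∧ w = w1 y) ∨
        (N j ≤ y.length ∧ w = w1 y ∧ ∃ i b x, y = ystr i b x ∧
          (i, x) ∉ (Q' : Set (ℕ × Str)) ∧ ¬ kap f i x W0 ∧ kap f i x W1))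
    {i : ℕ} {x : Str} (hi : yl i x < N (j + 1)) (hk : kap f i x W0) : kap f i x W1 := by
  have hsub : ∀ y w, (y, w) ∈ W0 → (y, w) ∈ W1 := fun y w h => (h1 y w).2 (Or.inl h)
  have hloc : ∀ (i : ℕ) (b : Bool) (x : Str) (y : Str), y = ystr i b x →
      (kap f i x {q | q ∈ W0 ∧ q.1.length < y.length} ↔ kap f i x W0) := by
    intro i b x y hy
    refine kap_congr hf fun p hp => ?_
    have hp' : p.1.length < y.length := by
      rw [hy, ystr_length]
      exact hp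
    exact ⟨fun h => h.1, fun h => ⟨h, hp'⟩⟩
  refine hw {q | q ∈ (Q' : Set (ℕ × Str)) ∧ kap f q.1 q.2 W1} (fun q hq => hq.1) W0 ?_ i x hi hk
    (orcl W1) ?_ ?_
  · rintro ⟨y, w⟩
    rw [h0 y w]
    unfold Phi0
    refine or_congr Iff.rfl (and_congr Iff.rfl (and_congr Iff.rfl ?_))
    constructor
    · rintro ⟨i, b, x, hy, h⟩
      exact ⟨i, b, x, hy, h.imp (hloc i b x y hy).2 (fun h => ⟨h.1, h.2.1, h.2.2⟩)⟩
    · rintro ⟨i, b, x, hy, h⟩
      exact ⟨i, b, x, hy, h.imp (hloc i b x y hy).1 (fun h => ⟨h.1, h.2.1, h.2.2⟩)⟩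
  · rintro q (⟨y, w, hq, hyw, hl⟩ | h)
    · exact Or.inl ⟨y, w, hq, hsub y w hyw, hl⟩
    · exact Or.inr h
  · rintro q (⟨y, w, hq, hyw, hl⟩ | h) hn
    · rcases (h1 y w).1 hyw with h | ⟨hy, hw'⟩ | ⟨hy, hw', -⟩
      · exact absurd (Or.inl ⟨y, w, hq, h, hl⟩) hn
      · exact ⟨y, by rw [hy, List.length_replicate], by rw [hq, hw']⟩
      · exact ⟨y, hy, by rw [hq, hw']⟩
    · exact absurd (Or.inr h) hn

/-- Let `Q' = {(i,x) | some ystr i b x ∈ Q}` (a finite set with at most `Q.card` elements),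
`w1` from `exists_fresh`, `W0`, `W1` from `exists_pair`.
Bits at levels `≥ N j`: in world 0, `b₀ = κ₀`, `b₁ = κ₀ ∨ ((i,x) ∈ Q' ∧ κ₁)`; in world 1,
`b₀ = κ₀`, `b₁ = κ₀ ∨ κ₁` if `(i,x) ∈ Q'` and `b₀ = b₁ = κ₀ ∨ κ₁` otherwise; here `κ₀ → κ₁`
below the level `N (j+1)` (`kap_mono`), and `κ₀ ↔ κ₁` at the level `N j` (`kap_congr`).
The special string is `dN j` for `N j < yl i x < N (j+1)` (`dl_eq`), so its bit is 0 in world 0
and 1 in world 1. Below `N j` use `ok_congr`. At the level `N j` both bits are `κ`. -/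
theorem two_worlds {f : ℕ → Cmd × ℕ} (hf : ∀ i, (f i).2 ≤ i) (j : ℕ) (Wb : Set (Str × Str))
    (hb : ∀ i x, yl i x < N j → Ok f Wb i x) (Q : Finset Str) (hQ : Q.card ≤ N (j + 1))
    (hd : dN j ∉ Q) : ∃ W0 W1 : Set (Str × Str),
      (∀ p : Str × Str, p.1.length < N j → (p ∈ W0 ↔ p ∈ Wb)) ∧
      (∀ p : Str × Str, p.1.length < N j → (p ∈ W1 ↔ p ∈ Wb)) ∧
      (∀ i x, yl i x < N (j + 1) → Ok f W0 i x) ∧ (∀ i x, yl i x < N (j + 1) → Ok f W1 i x) ∧
      dN j ∉ AA W0 ∧ dN j ∈ AA W1 ∧ ∀ y ∈ Q, (y ∈ AA W0 ↔ y ∈ AA W1) := by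
  classical
  obtain ⟨Q', hQ', hQ1⟩ : ∃ Q' : Finset (ℕ × Str), Q'.card ≤ N (j + 1) ∧
      ∀ i b x, ystr i b x ∈ Q → (i, x) ∈ Q' := by
    obtain ⟨g, hg⟩ : ∃ g : Str → ℕ × Str, ∀ i b x, g (ystr i b x) = (i, x) := by
      refine ⟨fun y => if h : ∃ p : ℕ × Str, ∃ b, y = ystr p.1 b p.2 then h.choose else (0, []),
        fun i b x => ?_⟩
      have h : ∃ p : ℕ × Str, ∃ b', ystr i b x = ystr p.1 b' p.2 := ⟨(i, x), b, rfl⟩
      refine (dif_pos h).trans ?_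
      obtain ⟨b', hb'⟩ := h.choose_spec
      obtain ⟨h1, -, h3⟩ := ystr_inj hb'
      exact Prod.ext h1.symm h3.symm
    refine ⟨Q.image g, Finset.card_image_le.trans hQ, fun i b x hy => ?_⟩
    exact Finset.mem_image.2 ⟨ystr i b x, hy, hg i b x⟩
  obtain ⟨w1, hw1, hw⟩ := exists_fresh hf j Wb Q' hQ'
  obtain ⟨W0, W1, h0, h1⟩ := exists_pair hf (N j) Wb (Q' : Set (ℕ × Str)) w1
  have hmono : ∀ i x, yl i x < N (j + 1) → kap f i x W0 → kap f i x W1 := fun i x hi hk =>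
    kap_mono hf j Wb Q' w1 hw h0 h1 hi hk
  -- below the level `N j`
  have low0 : ∀ p : Str × Str, p.1.length < N j → (p ∈ W0 ↔ p ∈ Wb) := by
    rintro ⟨y, w⟩ hy
    have hy' : y.length < N j := hy
    rw [h0]
    constructor
    · rintro (⟨-, h⟩ | ⟨h, -⟩)
      · exact h
      · omega
    · intro h
      exact Or.inl ⟨hy', h⟩
  have low1 : ∀ p : Str × Str, p.1.length < N j → (p ∈ W1 ↔ p ∈ Wb) := by
    rintro ⟨y, w⟩ hy
    have hy' : y.length < N j := hy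
    rw [h1]
    constructor
    · rintro (h | ⟨h, -⟩ | ⟨h, -⟩)
      · exact (low0 _ hy).1 h
      · rw [h, List.length_replicate] at hy'
        omega
      · omega
    · intro h
      exact Or.inl ((low0 _ hy).2 h)
  have eqk : ∀ i x, yl i x ≤ N j → (kap f i x W0 ↔ kap f i x W1) := fun i x hi =>
    kap_congr hf fun p hp =>
      (low0 p (hp.trans_le hi)).trans (low1 p (hp.trans_le hi)).symm
  -- the code strings
  have a0 : ∀ i b x, N j ≤ yl i x → (ystr i b x ∈ AA W0 ↔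
      kap f i x W0 ∨ (b = true ∧ (i, x) ∈ Q' ∧ kap f i x W1)) := by
    intro i b x hi
    constructor
    · rintro ⟨w, hw', -⟩
      rcases (h0 _ _).1 hw' with ⟨h, -⟩ | ⟨-, -, i', b', x', he, h⟩
      · rw [ystr_length] at h
        omega
      · obtain ⟨rfl, rfl, rfl⟩ := ystr_inj he
        exact h
    · intro h
      exact ⟨w0 (ystr i b x), (h0 _ _).2 (Or.inr ⟨by rw [ystr_length]; exact hi, rfl, i, b, x,
        rfl, h⟩), by simp [w0]⟩
  have a1 : ∀ i b x, N j ≤ yl i x → (ystr i b x ∈ AA W1 ↔ ystr i b x ∈ AA W0 ∨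
      ((i, x) ∉ Q' ∧ ¬ kap f i x W0 ∧ kap f i x W1)) := by
    intro i b x hi
    constructor
    · rintro ⟨w, hw', hl⟩
      rcases (h1 _ _).1 hw' with h | ⟨h, -⟩ | ⟨-, -, i', b', x', he, h⟩
      · exact Or.inl ⟨w, h, hl⟩
      · exact absurd h (ystr_ne_rep i b x (N j))
      · obtain ⟨rfl, rfl, rfl⟩ := ystr_inj he
        exact Or.inr h
    · rintro (⟨w, h, hl⟩ | h)
      · exact ⟨w, (h1 _ _).2 (Or.inl h), hl⟩
      · exact ⟨w1 (ystr i b x), (h1 _ _).2 (Or.inr (Or.inr ⟨by rw [ystr_length]; exact hi, rfl,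
          i, b, x, rfl, h⟩)), hw1 _ (by rw [ystr_length]; exact hi)⟩
  -- the special string
  have d0 : dN j ∉ AA W0 := by
    rintro ⟨w, hw', -⟩
    rcases (h0 _ _).1 hw' with ⟨h, -⟩ | ⟨-, -, i, b, x, he, -⟩
    · rw [dN, List.length_replicate] at h
      omega
    · exact ystr_ne_rep i b x (N j) he.symm
  have d1 : dN j ∈ AA W1 :=
    ⟨w1 (dN j), (h1 _ _).2 (Or.inr (Or.inl ⟨rfl, rfl⟩)), hw1 _ (by simp [dN])⟩
  refine ⟨W0, W1, low0, low1, ?_, ?_, d0, d1, ?_⟩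
  · intro i x hi
    by_cases hl : yl i x < N j
    · exact ok_congr hf (fun p hp => (low0 p hp).symm) hl (hb i x hl)
    · have hl' : N j ≤ yl i x := by omega
      have A0 : ystr i false x ∈ AA W0 ↔ kap f i x W0 := by
        rw [a0 i false x hl']
        simp
      have A1 : ystr i true x ∈ AA W0 ↔ kap f i x W0 ∨ ((i, x) ∈ Q' ∧ kap f i x W1) := by
        rw [a0 i true x hl']
        simp
      refine ⟨fun h => A1.2 (Or.inl (A0.1 h)), ?_⟩
      rcases hl'.eq_or_lt with he | hlt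
      · have hk := eqk i x he.ge
        rw [A0, A1]
        tauto
      · have hD : List.replicate (dl (yl i x)) true ∉ AA W0 := by
          rw [dl_eq hlt hi.le]
          exact d0
        rw [A0, A1]
        tauto
  · intro i x hi
    by_cases hl : yl i x < N j
    · exact ok_congr hf (fun p hp => (low1 p hp).symm) hl (hb i x hl)
    · have hl' : N j ≤ yl i x := by omega
      have hm := hmono i x hi
      have A0 : ystr i false x ∈ AA W1 ↔
          kap f i x W0 ∨ ((i, x) ∉ Q' ∧ ¬ kap f i x W0 ∧ kap f i x W1) := by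
        rw [a1 i false x hl', a0 i false x hl']
        simp
      have A1 : ystr i true x ∈ AA W1 ↔ (kap f i x W0 ∨ ((i, x) ∈ Q' ∧ kap f i x W1)) ∨
          ((i, x) ∉ Q' ∧ ¬ kap f i x W0 ∧ kap f i x W1) := by
        rw [a1 i true x hl', a0 i true x hl']
        simp
      refine ⟨fun h => A1.2 ((A0.1 h).imp Or.inl id), ?_⟩
      rcases hl'.eq_or_lt with he | hlt
      · have hk := eqk i x he.ge
        rw [A0, A1]
        tauto
      · have hD : List.replicate (dl (yl i x)) true ∈ AA W1 := by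
          rw [dl_eq hlt hi.le]
          exact d1
        rw [A0, A1]
        tauto
  · intro y hy
    constructor
    · rintro ⟨w, h, hl⟩
      exact ⟨w, (h1 _ _).2 (Or.inl h), hl⟩
    · rintro ⟨w, h, hl⟩
      rcases (h1 _ _).1 h with h | ⟨h, -⟩ | ⟨-, -, i, b, x, he, h, -⟩
      · exact ⟨w, h, hl⟩
      · rw [h] at hy
        exact absurd hy hd
      · rw [he] at hy
        exact absurd (hQ1 i b x hy) h

end Pool.Agent.Helper5.AN
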